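import Pool.Agent.H68.TO.Def

/-!
# Module Bd: bounds on compact sets of velocities
`F` is continuous and `ℤⁿ × ℤ`-periodic in `(x, t)`: every `(x, t)` is congruent to a point with `‖x‖ ≤ √n`
(`exists_near`, `pr_eq_pr`) and `0 ≤ t ≤ 1` (`Int.fract`), and `F` is bounded on the compact set
`closedBall 0 √n × closedBall 0 V × [0, 1]`.
-/

set_option autoImplicit false

open MeasureTheory Filter
open scoped RealInnerProductSpace

namespace Pool.Agent.H68.TO

open Pool.Agent.H33.AM (E Tor pr IsPeriodic)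
open Pool.Agent.H68.HD

variable {n : ℕ}

theorem bd {F : E n → E n → ℝ → ℝ} (hF : IsPeriodic F)
    (hc : Continuous fun z : E n × E n × ℝ => F z.1 z.2.1 z.2.2) (V : ℝ) :
    ∃ A : ℝ, 0 ≤ A ∧ ∀ x v t, ‖v‖ ≤ V → |F x v t| ≤ A := by
  have hK : IsCompact ((Metric.closedBall (0 : E n) (Real.sqrt n)) ×ˢ
      ((Metric.closedBall (0 : E n) V) ×ˢ (Set.Icc (0 : ℝ) 1))) :=
    (isCompact_closedBall _ _).prod ((isCompact_closedBall _ _).prod isCompact_Icc)
  obtain ⟨A, hA⟩ := hK.exists_bound_of_continuousOn hc.continuousOn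
  refine ⟨max A 0, le_max_right _ _, fun x v t hv => ?_⟩
  obtain ⟨z, hz, -⟩ := exists_near x
  have h1 : F x v t = F (x + zv z) v (Int.fract t) := by
    refine hF _ _ _ _ _ (pr_eq_pr.2 ⟨z, rfl⟩) ?_
    rw [← sub_eq_zero, ← AddCircle.coe_sub, AddCircle.coe_eq_zero_iff]
    exact ⟨⌊t⌋, by rw [Int.self_sub_fract]; simp⟩
  rw [h1]
  have h2 := hA (x + zv z, v, Int.fract t) ⟨by simpa using hz, by simpa using hv,
    Int.fract_nonneg t, (Int.fract_lt_one t).le⟩
  rw [Real.norm_eq_abs] at h2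
  exact h2.trans (le_max_left _ _)

end Pool.Agent.H68.TO
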