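import Pool.Agent.H68.TO.Def
import Pool.Agent.H68.HD.AC0

/-!
# Module LpI: Lipschitz curves have an integrable action
`δ` is `ρ`-Lipschitz, so absolutely continuous on `[0, 1]` (`LipschitzOnWith.absolutelyContinuousOnInterval` or the
ε-δ characterisation `absolutelyContinuousOnInterval_iff`) and `‖deriv δ t‖ ≤ ρ` (`norm_deriv_le_of_lipschitz`).
The integrand is measurable (`M` continuous, `δ` continuous, `measurable_deriv`) and bounded on `[0, 1]` (the image of
`[0, 1]` under `δ`, the closed ball of radius `ρ` and `[0, 1]` are compact, `M` is continuous), so it is integrable.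
`∫ c · δ' = c · (δ 1 - δ 0)` by `ac_ftc`.
-/

set_option autoImplicit false

open MeasureTheory Filter
open scoped RealInnerProductSpace

namespace Pool.Agent.H68.TO

open Pool.Agent.H33.AM (E Tor pr IsPeriodic)
open Pool.Agent.H68.HD

variable {n : ℕ}

private theorem lpi_lip {δ : ℝ → E n} {ρ : ℝ} (hρ : 0 ≤ ρ) (hδ : ∀ s t, ‖δ t - δ s‖ ≤ ρ * |t - s|) :
    LipschitzWith ⟨ρ, hρ⟩ δ := by
  refine LipschitzWith.of_dist_le_mul fun x y => ?_
  rw [dist_eq_norm, Real.dist_eq]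
  exact hδ y x

theorem lpi_deriv {δ : ℝ → E n} {ρ : ℝ} (hρ : 0 ≤ ρ) (hδ : ∀ s t, ‖δ t - δ s‖ ≤ ρ * |t - s|) (t : ℝ) :
    ‖deriv δ t‖ ≤ ρ :=
  norm_deriv_le_of_lipschitz (lpi_lip hρ hδ)

theorem lpi_int {M : E n → E n → ℝ → ℝ}
    (hM : Continuous fun z : E n × E n × ℝ => M z.1 z.2.1 z.2.2) {δ : ℝ → E n} {ρ : ℝ} (hρ : 0 ≤ ρ)
    (hδ : ∀ s t, ‖δ t - δ s‖ ≤ ρ * |t - s|) :
    IntervalIntegrable (fun t => M (δ t) (deriv δ t) t) volume 0 1 := by
  have hc : Continuous δ := (lpi_lip hρ hδ).continuous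
  have hmeas : Measurable fun t => M (δ t) (deriv δ t) t :=
    hM.measurable.comp (hc.measurable.prodMk ((measurable_deriv δ).prodMk measurable_id))
  have hK : IsCompact ((δ '' Set.Icc 0 1) ×ˢ (Metric.closedBall (0 : E n) ρ ×ˢ Set.Icc (0 : ℝ) 1)) :=
    (isCompact_Icc.image hc).prod ((isCompact_closedBall _ _).prod isCompact_Icc)
  obtain ⟨C, hC⟩ := hK.exists_bound_of_continuousOn hM.continuousOn
  rw [intervalIntegrable_iff_integrableOn_Icc_of_le zero_le_one]
  refine Measure.integrableOn_of_bounded (M := C) (by simp) hmeas.aestronglyMeasurable ?_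
  rw [ae_restrict_iff' measurableSet_Icc]
  refine Filter.Eventually.of_forall fun t ht => ?_
  refine hC (δ t, deriv δ t, t) ⟨⟨t, ht, rfl⟩, ?_, ht⟩
  rw [Metric.mem_closedBall, dist_zero_right]
  exact lpi_deriv hρ hδ t

theorem lpi_crv {M : E n → E n → ℝ → ℝ}
    (hM : Continuous fun z : E n × E n × ℝ => M z.1 z.2.1 z.2.2) {δ : ℝ → E n} {ρ : ℝ} (hρ : 0 ≤ ρ)
    (hδ : ∀ s t, ‖δ t - δ s‖ ≤ ρ * |t - s|) (c : E n) (a : ℝ) :
    Crv M c a 1 δ ((∫ t in (0 : ℝ)..1, M (δ t) (deriv δ t) t) - ⟪c, δ 1 - δ 0⟫ + a) := by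
  have hac : AbsolutelyContinuousOnInterval δ 0 1 :=
    (lpi_lip hρ hδ).lipschitzOnWith.absolutelyContinuousOnInterval
  have h1 := lpi_int hM hρ hδ
  have h2 : IntervalIntegrable (deriv δ) volume 0 1 := ac_int hac
  have h3 : IntervalIntegrable (fun t => ⟪c, deriv δ t⟫) volume 0 1 := by
    rw [intervalIntegrable_iff] at h2 ⊢
    exact Integrable.const_inner c h2
  have h4 : ∫ t in (0 : ℝ)..1, ⟪c, deriv δ t⟫ = ⟪c, δ 1 - δ 0⟫ := by
    have h5 := (innerSL ℝ c).intervalIntegral_comp_comm h2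
    rw [ac_ftc hac] at h5
    exact h5
  refine ⟨?_, ?_, ?_⟩
  · rw [Nat.cast_one]
    exact hac
  · rw [Nat.cast_one]
    exact (h1.sub h3).add intervalIntegrable_const
  · rw [Nat.cast_one, intervalIntegral.integral_add (h1.sub h3) intervalIntegrable_const,
      intervalIntegral.integral_sub h1 h3, h4, intervalIntegral.integral_const]
    simp

end Pool.Agent.H68.TO
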