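import Pool.Agent.H68.TO.Def

/-!
# Module Cov: change of variables `t = T(u)`
Let `D ⊆ (0, 1)` be measurable with `HasDerivAt T (θ u) u` for all `u ∈ D` and `volume ((0, 1) \ D) = 0` (remove a
measurable null superset of the exceptional set of `h.der`). `T` is injective on `D` (`h.mono`), `T '' D ⊆ (0, 1)`
(`T 0 = 0`, `T 1 = 1`), `T '' D` is measurable (`MeasurableSet.image_of_continuousOn_injOn`), and
`volume (T '' D) = ∫⁻ u in D, |θ u| = 1` (`lintegral_abs_det_fderiv_eq_addHaar_image` or
`lintegral_image_eq_lintegral_abs_deriv_mul` with the function `1`; `∫_0^1 θ = T 1 - T 0 = 1`, `θ ≥ 0`), so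
`T '' D = (0, 1]` a.e. Then `integral_image_eq_integral_abs_deriv_smul` and
`integrableOn_image_iff_integrableOn_abs_deriv_smul`.
-/

set_option autoImplicit false

open MeasureTheory Filter

namespace Pool.Agent.H68.TO

theorem cov {θ T S : ℝ → ℝ} (h : Tm θ T S) (hm : Measurable θ) (hlo : ∀ t, 1 / 2 ≤ θ t) {g : ℝ → ℝ}
    (hg : IntervalIntegrable g volume 0 1) :
    IntervalIntegrable (fun u => θ u * g (T u)) volume 0 1 ∧
    ∫ t in (0 : ℝ)..1, g t = ∫ u in (0 : ℝ)..1, θ u * g (T u) := by
  have hpos : ∀ u, 0 ≤ θ u := fun u => by linarith [hlo u]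
  have habs : ∀ u, |θ u| = θ u := fun u => abs_of_nonneg (hpos u)
  -- the set of the good points
  set A : Set ℝ := {u | DifferentiableAt ℝ T u} ∩ {u | deriv T u = θ u} with hA
  have hAm : MeasurableSet A :=
    (measurableSet_of_differentiableAt ℝ T).inter (measurableSet_eq_fun (measurable_deriv T) hm)
  have hAae : A =ᵐ[volume] (Set.univ : Set ℝ) := by
    rw [eventuallyEq_univ]
    filter_upwards [h.der] with u hu
    exact ⟨hu.differentiableAt, hu.deriv⟩
  set D : Set ℝ := Set.Ioo (0 : ℝ) 1 ∩ A with hD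
  have hDm : MeasurableSet D := measurableSet_Ioo.inter hAm
  have hDae : D =ᵐ[volume] Set.Ioc (0 : ℝ) 1 :=
    (inter_ae_eq_left_of_ae_eq_univ hAae).trans Ioo_ae_eq_Ioc
  have hder : ∀ u ∈ D, HasDerivWithinAt T (θ u) D u := by
    intro u hu
    have h1 : HasDerivAt T (deriv T u) u := hu.2.1.hasDerivAt
    have h2 : deriv T u = θ u := hu.2.2
    rw [h2] at h1
    exact h1.hasDerivWithinAt
  have hinj : Set.InjOn T D := h.mono.injective.injOn
  have himm : MeasurableSet (T '' D) := hDm.image_of_continuousOn_injOn h.cont.continuousOn hinj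
  have hsub : T '' D ⊆ Set.Ioc (0 : ℝ) 1 := by
    rintro _ ⟨u, hu, rfl⟩
    have h0 := h.mono hu.1.1
    have h1 := h.mono hu.1.2
    rw [h.T0] at h0
    rw [h.T1] at h1
    exact ⟨h0, h1.le⟩
  -- the volume of the image
  have hone : ∫ u in Set.Ioc (0 : ℝ) 1, θ u = 1 := by
    rw [← intervalIntegral.integral_of_le zero_le_one, ← h.eq 1, h.T1]
  have hint : IntegrableOn θ (Set.Ioc (0 : ℝ) 1) :=
    (intervalIntegrable_iff_integrableOn_Ioc_of_le zero_le_one).1 (h.intl 0 1)
  have hvol : volume (T '' D) = 1 := by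
    have h1 := lintegral_image_eq_lintegral_abs_deriv_mul hDm hder hinj (fun _ => 1)
    rw [setLIntegral_one] at h1
    rw [h1]
    simp only [mul_one, habs]
    rw [setLIntegral_congr hDae,
      ← ofReal_integral_eq_lintegral_ofReal hint (Eventually.of_forall hpos), hone,
      ENNReal.ofReal_one]
  have himae : T '' D =ᵐ[volume] Set.Ioc (0 : ℝ) 1 := by
    refine ae_eq_of_subset_of_measure_ge hsub ?_ himm.nullMeasurableSet ?_
    · rw [hvol, Real.volume_Ioc]
      simp
    · rw [Real.volume_Ioc]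
      exact ENNReal.ofReal_ne_top
  have hfun : (fun u => |θ u| • g (T u)) = fun u => θ u * g (T u) := by
    funext u
    rw [habs, smul_eq_mul]
  have hg1 : IntegrableOn g (Set.Ioc (0 : ℝ) 1) :=
    (intervalIntegrable_iff_integrableOn_Ioc_of_le zero_le_one).1 hg
  have hg2 : IntegrableOn g (T '' D) := hg1.congr_set_ae himae
  have hg3 := (integrableOn_image_iff_integrableOn_abs_deriv_smul hDm hder hinj g).1 hg2
  rw [hfun] at hg3
  refine ⟨(intervalIntegrable_iff_integrableOn_Ioc_of_le zero_le_one).2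
    (hg3.congr_set_ae hDae.symm), ?_⟩
  have h4 := integral_image_eq_integral_abs_deriv_smul hDm hder hinj g
  rw [hfun] at h4
  rw [intervalIntegral.integral_of_le zero_le_one, intervalIntegral.integral_of_le zero_le_one,
    ← setIntegral_congr_set himae, h4, setIntegral_congr_set hDae]

end Pool.Agent.H68.TO
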