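import Pool.Agent.H68.TO.Def
import Pool.Agent.H68.HD.AC0

/-!
# Module Cur: the reparametrized curve
`γ₁ s := γ (max 0 (min s 1))`, `δ t := γ₁ (S t)`. `S 0 = 0`, `S 1 = 1`, `S` is monotone.
Lipschitz: for `s ≤ t`, with `p = max 0 (min (S s) 1) ≤ q = max 0 (min (S t) 1)`:
`‖γ q - γ p‖ ≤ ∫_p^q ‖γ'‖ ≤ ρ ∫_p^q θ = ρ (T q - T p) ≤ ρ (t - s)` (`ac_ftc` on `[p, q]`, `hθ.dom`, `T` monotone,
`T p = max 0 (min s 1)` etc.).
Derivative: for a.e. `u ∈ (0, 1)`, `γ` is differentiable at `u` (`ac_diff`), so `γ₁` too (equal to `γ` near `u`), and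
`T` has the derivative `θ u > 0` at `u` (`h.der`), so `S` has the derivative `(θ u)⁻¹` at `T u`
(`HasDerivAt.of_local_left_inverse`, `S` continuous, `T (S t) = t`); chain rule (`HasDerivAt.scomp`) at `T u`, `S (T u) = u`.
The end points are a null set.
-/

set_option autoImplicit false

open MeasureTheory Filter
open scoped RealInnerProductSpace

namespace Pool.Agent.H68.TO

open Pool.Agent.H33.AM (E Tor pr IsPeriodic)
open Pool.Agent.H68.HD

variable {n : ℕ}

/-- the projection on `[0, 1]` -/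
private noncomputable def curcl (s : ℝ) : ℝ := max 0 (min s 1)

private theorem curcl_mem (s : ℝ) : 0 ≤ curcl s ∧ curcl s ≤ 1 := by
  unfold curcl
  exact ⟨le_max_left _ _, max_le zero_le_one (min_le_right _ _)⟩

private theorem curcl_of_mem {s : ℝ} (h : s ∈ Set.Icc (0 : ℝ) 1) : curcl s = s := by
  unfold curcl
  rw [min_eq_left h.2, max_eq_right h.1]

private theorem curcl_mono : Monotone curcl := by
  intro s t hst
  unfold curcl
  exact max_le_max_left 0 (min_le_min_right 1 hst)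

private theorem curcl_sub {s t : ℝ} (hst : s ≤ t) : curcl t - curcl s ≤ t - s := by
  unfold curcl
  rcases le_total s 1 with h1 | h1 <;> rcases le_total t 1 with h2 | h2
  · rw [min_eq_left h1, min_eq_left h2]
    rcases le_total s 0 with h3 | h3 <;> rcases le_total t 0 with h4 | h4
    · rw [max_eq_left h3, max_eq_left h4]; linarith
    · rw [max_eq_left h3, max_eq_right h4]; linarith
    · rw [max_eq_right h3, max_eq_left h4]; linarith
    · rw [max_eq_right h3, max_eq_right h4]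
  · rw [min_eq_left h1, min_eq_right h2, max_eq_right zero_le_one]
    rcases le_total s 0 with h3 | h3
    · rw [max_eq_left h3]; linarith
    · rw [max_eq_right h3]; linarith
  · rw [min_eq_right h1, min_eq_left h2, max_eq_right zero_le_one, max_eq_right (by linarith)]
    linarith
  · rw [min_eq_right h1, min_eq_right h2]; linarith

private theorem cur_T_cl {θ T S : ℝ → ℝ} (h : Tm θ T S) (x : ℝ) : T (curcl x) = curcl (T x) := by
  unfold curcl
  rw [h.mono.monotone.map_max, h.mono.monotone.map_min, h.T0, h.T1]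

private theorem cur_key {γ : ℝ → E n} (hγ : AbsolutelyContinuousOnInterval γ 0 1)
    {θ T S : ℝ → ℝ} {V ρ τ : ℝ} (hθ : Th (fun t => ‖deriv γ t‖) θ V ρ τ) (h : Tm θ T S)
    {p q : ℝ} (hp : 0 ≤ p) (hpq : p ≤ q) (hq : q ≤ 1) : ‖γ q - γ p‖ ≤ ρ * (T q - T p) := by
  have hac : AbsolutelyContinuousOnInterval γ p q := hγ.mono (by
    rw [Set.uIcc_of_le hpq, Set.uIcc_of_le zero_le_one]
    exact Set.Icc_subset_Icc hp hq)
  have hi := ac_int hac
  rw [← ac_ftc hac]
  have h1 := intervalIntegral.norm_integral_le_integral_norm (μ := volume) (f := deriv γ) hpq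
  have h2 : (∫ t in p..q, ‖deriv γ t‖) ≤ ∫ t in p..q, θ t * ρ := by
    refine intervalIntegral.integral_mono_on hpq hi.norm ((h.intl p q).mul_const ρ) fun t ht => ?_
    exact hθ.dom t ⟨hp.trans ht.1, ht.2.trans hq⟩
  have h3 : (∫ t in p..q, θ t * ρ) = ρ * (T q - T p) := by
    rw [intervalIntegral.integral_mul_const, h.eq q, h.eq p,
      intervalIntegral.integral_interval_sub_left (h.intl 0 q) (h.intl 0 p)]
    ring
  linarith

theorem cur {γ : ℝ → E n} (hγ : AbsolutelyContinuousOnInterval γ 0 1) {θ T S : ℝ → ℝ} {V ρ τ : ℝ}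
    (hρ : 0 ≤ ρ) (hθ : Th (fun t => ‖deriv γ t‖) θ V ρ τ) (h : Tm θ T S) :
    ∃ δ : ℝ → E n, δ 0 = γ 0 ∧ δ 1 = γ 1 ∧ (∀ s t, ‖δ t - δ s‖ ≤ ρ * |t - s|) ∧
      ∀ᵐ u : ℝ, u ∈ Set.Icc (0 : ℝ) 1 → δ (T u) = γ u ∧ deriv δ (T u) = (θ u)⁻¹ • deriv γ u := by
  have hS0 : S 0 = 0 := by
    have := h.ST 0
    rwa [h.T0] at this
  have hS1 : S 1 = 1 := by
    have := h.ST 1
    rwa [h.T1] at this
  have hSm : Monotone S := by
    intro s t hst
    by_contra hlt
    push Not at hlt
    have := h.mono hlt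
    rw [h.TS, h.TS] at this
    linarith
  have hlip : ∀ s t, s ≤ t → ‖γ (curcl (S t)) - γ (curcl (S s))‖ ≤ ρ * (t - s) := by
    intro s t hst
    have h1 := cur_key hγ hθ h (curcl_mem (S s)).1 (curcl_mono (hSm hst)) (curcl_mem (S t)).2
    rw [cur_T_cl h, cur_T_cl h, h.TS, h.TS] at h1
    exact h1.trans (mul_le_mul_of_nonneg_left (curcl_sub hst) hρ)
  refine ⟨fun t => γ (curcl (S t)), ?_, ?_, ?_, ?_⟩
  · show γ (curcl (S 0)) = γ 0
    rw [hS0, curcl_of_mem ⟨le_rfl, zero_le_one⟩]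
  · show γ (curcl (S 1)) = γ 1
    rw [hS1, curcl_of_mem ⟨zero_le_one, le_rfl⟩]
  · intro s t
    show ‖γ (curcl (S t)) - γ (curcl (S s))‖ ≤ ρ * |t - s|
    rcases le_total s t with hst | hst
    · rw [abs_of_nonneg (sub_nonneg.2 hst)]
      exact hlip s t hst
    · rw [abs_of_nonpos (sub_nonpos.2 hst), norm_sub_rev, neg_sub]
      exact hlip t s hst
  · have hne0 : ∀ᵐ u : ℝ, u ≠ 0 := by
      rw [ae_iff]; simp
    have hne1 : ∀ᵐ u : ℝ, u ≠ 1 := by
      rw [ae_iff]; simp
    filter_upwards [ac_diff hγ, h.der, hne0, hne1] with u hd hT h0 h1 hu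
    have hu' : u ∈ Set.Ioo (0 : ℝ) 1 := ⟨lt_of_le_of_ne hu.1 (Ne.symm h0), lt_of_le_of_ne hu.2 h1⟩
    have hcu : curcl u = u := curcl_of_mem hu
    refine ⟨?_, ?_⟩
    · show γ (curcl (S (T u))) = γ u
      rw [h.ST, hcu]
    · have hdu : DifferentiableAt ℝ γ u := hd (by rw [Set.uIcc_of_le zero_le_one]; exact hu)
      have hev : (fun s => γ (curcl s)) =ᶠ[nhds u] γ := by
        filter_upwards [Ioo_mem_nhds hu'.1 hu'.2] with x hx
        rw [curcl_of_mem ⟨hx.1.le, hx.2.le⟩]
      have hγ1 : HasDerivAt (fun s => γ (curcl s)) (deriv γ u) u :=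
        hdu.hasDerivAt.congr_of_eventuallyEq hev
      have hcS : Continuous S := by
        have hL : LipschitzWith 2 S := by
          refine LipschitzWith.of_dist_le_mul fun x y => ?_
          rw [Real.dist_eq, Real.dist_eq]
          exact h.lipS y x
        exact hL.continuous
      have hθu : θ u ≠ 0 := by
        have := hθ.lo u
        linarith
      have hS' : HasDerivAt S (θ u)⁻¹ (T u) := by
        refine HasDerivAt.of_local_left_inverse hcS.continuousAt ?_ hθu
          (Eventually.of_forall fun y => h.TS y)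
        rw [h.ST]
        exact hT
      have hγ2 : HasDerivAt (fun s => γ (curcl s)) (deriv γ u) (S (T u)) := by
        rw [h.ST]; exact hγ1
      have hc := HasDerivAt.scomp (T u) hγ2 hS'
      exact hc.deriv

end Pool.Agent.H68.TO
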