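import Pool.Agent.H68.TO.Def

/-!
# Module Ineq: the pointwise inequality for the new action
With `w = θ⁻¹ • v`: `M x w T ≤ M x w u + K |T - u| (D + M x w u) ≤ M x w u + K τ (D + M x w u)`, since
`D + M ≥ D - B ≥ 0` (`lo`, `hD`). Times `θ`: `θ M x w T ≤ (1 + K τ) (θ M x w u) + K τ D θ`. And
`θ M x w u ≤ M x v u + e₀ max (1 - θ) 0 - e max (θ - 1) 0`: by `slow` if `θ < 1`, by `fast` if `θ > 1`, trivial if `θ = 1`.
-/

set_option autoImplicit false

open MeasureTheory Filter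
open scoped RealInnerProductSpace

namespace Pool.Agent.H68.TO

open Pool.Agent.H33.AM (E Tor pr IsPeriodic)
open Pool.Agent.H68.HD

variable {n : ℕ}

theorem ineq {M : E n → E n → ℝ → ℝ} {R B K D C₀ C₁ C₂ C₃ e₀ e V ρ : ℝ}
    (hM : Slow M R B K D C₀ e₀ e V ρ) (hC : Cst n R B K D C₀ C₁ C₂ C₃ e₀ e V ρ) (x v : E n)
    {θ T u τ : ℝ} (hlo : 1 / 2 ≤ θ) (hf : 1 < θ → ‖v‖ = θ * ρ) (hs : θ < 1 → ‖v‖ ≤ V)
    (hτ : |T - u| ≤ τ) :
    θ * M x (θ⁻¹ • v) T ≤
      (1 + K * τ) * (M x v u + e₀ * max (1 - θ) 0 - e * max (θ - 1) 0) + K * τ * D * θ := by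
  have hθ : 0 < θ := by linarith
  have hτ0 : 0 ≤ τ := (abs_nonneg _).trans hτ
  have hKτ : 0 ≤ K * τ := mul_nonneg hC.hK hτ0
  have key : θ * M x (θ⁻¹ • v) u ≤ M x v u + e₀ * max (1 - θ) 0 - e * max (θ - 1) 0 := by
    rcases lt_trichotomy θ 1 with h | h | h
    · have h1 : max (1 - θ) 0 = 1 - θ := max_eq_left (by linarith)
      have h2 : max (θ - 1) 0 = 0 := max_eq_right (by linarith)
      have h3 := hM.slow x v u θ (hs h) hlo h.le
      rw [h1, h2]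
      linarith
    · subst h
      simp
    · have h1 : max (1 - θ) 0 = 0 := max_eq_right (by linarith)
      have h2 : max (θ - 1) 0 = θ - 1 := max_eq_left (by linarith)
      have h3 := hM.fast x v u θ h.le (hf h)
      rw [h1, h2]
      linarith
  have hlow : 0 ≤ D + M x (θ⁻¹ • v) u := by
    have h1 := hM.lo x (θ⁻¹ • v) u
    have h2 : 0 ≤ (R + 1) * ‖θ⁻¹ • v‖ :=
      mul_nonneg (by linarith [hC.hR]) (norm_nonneg _)
    linarith [hC.hD]
  have htime : M x (θ⁻¹ • v) T ≤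
      M x (θ⁻¹ • v) u + K * τ * (D + M x (θ⁻¹ • v) u) := by
    have h1 := hM.time x (θ⁻¹ • v) T u
    have h2 : K * |T - u| * (D + M x (θ⁻¹ • v) u) ≤ K * τ * (D + M x (θ⁻¹ • v) u) :=
      mul_le_mul_of_nonneg_right (mul_le_mul_of_nonneg_left hτ hC.hK) hlow
    linarith
  have h1 := mul_le_mul_of_nonneg_left htime hθ.le
  have h2 := mul_le_mul_of_nonneg_left key (add_nonneg zero_le_one hKτ)
  have h3 : θ * (M x (θ⁻¹ • v) u + K * τ * (D + M x (θ⁻¹ • v) u)) =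
      (1 + K * τ) * (θ * M x (θ⁻¹ • v) u) + K * τ * D * θ := by ring
  rw [h3] at h1
  linarith

end Pool.Agent.H68.TO
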