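import Pool.Agent.H68.TO.Def
import Pool.Agent.H68.HD.AC0

/-!
# Module Pre: bounds for curves of small action
`deriv γ` is interval integrable (`ac_int`), so are `c · deriv γ` and `‖deriv γ‖`, hence `M(γ, γ', t)`, which is the
integrand plus `c · deriv γ - a`; `∫ c · deriv γ = c · (γ 1 - γ 0)` (`ac_ftc`). From `M ≥ (R + 1)‖v‖ - B` and
`c · v ≤ R ‖v‖`: `‖v‖ - B ≤ M - c · v`, integrate: `∫ ‖γ'‖ ≤ (r - a) + B ≤ C₂ + B ≤ C₁`. Then
`∫ M = (r - a) + ∫ c · γ' ≤ C₂ + R C₁ ≤ C₃`. (In `Crv` the end point is `((1 : ℕ) : ℝ)`.)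
-/

set_option autoImplicit false

open MeasureTheory Filter
open scoped RealInnerProductSpace

namespace Pool.Agent.H68.TO

open Pool.Agent.H33.AM (E Tor pr IsPeriodic)
open Pool.Agent.H68.HD

variable {n : ℕ}

theorem pre {M : E n → E n → ℝ → ℝ} {R B K D C₀ C₁ C₂ C₃ e₀ e V ρ : ℝ}
    (hM : Slow M R B K D C₀ e₀ e V ρ) (hC : Cst n R B K D C₀ C₁ C₂ C₃ e₀ e V ρ) {c : E n}
    (hc : ‖c‖ ≤ R) {a r : ℝ} {γ : ℝ → E n} (h : Crv M c a 1 γ r) (hr : r ≤ C₂ + a) :
    IntervalIntegrable (fun t => M (γ t) (deriv γ t) t) volume 0 1 ∧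
    IntervalIntegrable (fun t => ‖deriv γ t‖) volume 0 1 ∧
    ∫ t in (0 : ℝ)..1, ‖deriv γ t‖ ≤ C₁ ∧
    ∫ t in (0 : ℝ)..1, M (γ t) (deriv γ t) t ≤ C₃ ∧
    r = (∫ t in (0 : ℝ)..1, M (γ t) (deriv γ t) t) - ⟪c, γ 1 - γ 0⟫ + a := by
  have hac := h.ac
  have hint := h.int
  have heq := h.eq
  rw [Nat.cast_one] at hac hint heq
  have hd : IntervalIntegrable (deriv γ) volume 0 1 := ac_int hac
  have hdn : IntervalIntegrable (fun t => ‖deriv γ t‖) volume 0 1 := hd.norm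
  have hdc : IntervalIntegrable (fun t => ⟪c, deriv γ t⟫) volume 0 1 := by
    rw [intervalIntegrable_iff] at hd ⊢
    exact (innerSL ℝ c).integrable_comp hd
  have hca : IntervalIntegrable (fun _ : ℝ => a) volume 0 1 := intervalIntegrable_const
  have hcB : IntervalIntegrable (fun _ : ℝ => B) volume 0 1 := intervalIntegrable_const
  have hMi : IntervalIntegrable (fun t => M (γ t) (deriv γ t) t) volume 0 1 := by
    have h1 := (hint.add hdc).sub hca
    refine h1.congr fun t _ => ?_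
    show M (γ t) (deriv γ t) t - ⟪c, deriv γ t⟫ + a + ⟪c, deriv γ t⟫ - a = M (γ t) (deriv γ t) t
    ring
  -- the integral of `c · γ'`
  have hci : ∫ t in (0 : ℝ)..1, ⟪c, deriv γ t⟫ = ⟪c, γ 1 - γ 0⟫ := by
    have h1 := (innerSL ℝ c).intervalIntegral_comp_comm hd
    rw [ac_ftc hac] at h1
    exact h1
  -- the action
  have hr1 : r = (∫ t in (0 : ℝ)..1, M (γ t) (deriv γ t) t) - ⟪c, γ 1 - γ 0⟫ + a := by
    rw [heq, intervalIntegral.integral_add (hMi.sub hdc) hca,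
      intervalIntegral.integral_sub hMi hdc, hci, intervalIntegral.integral_const]
    simp
  -- the norm of the velocity
  have hn1 : ∫ t in (0 : ℝ)..1, ‖deriv γ t‖ ≤ C₁ := by
    have h1 : ∫ t in (0 : ℝ)..1, (‖deriv γ t‖ - B) ≤
        ∫ t in (0 : ℝ)..1, (M (γ t) (deriv γ t) t - ⟪c, deriv γ t⟫) := by
      refine intervalIntegral.integral_mono_on zero_le_one (hdn.sub hcB) (hMi.sub hdc) ?_
      intro t _
      have h2 := hM.lo (γ t) (deriv γ t) t
      have h3 : ⟪c, deriv γ t⟫ ≤ R * ‖deriv γ t‖ :=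
        (real_inner_le_norm _ _).trans (mul_le_mul_of_nonneg_right hc (norm_nonneg _))
      linarith
    rw [intervalIntegral.integral_sub hdn hcB, intervalIntegral.integral_sub hMi hdc, hci,
      intervalIntegral.integral_const] at h1
    simp only [sub_zero, smul_eq_mul, one_mul] at h1
    have h4 := hC.h1
    linarith
  refine ⟨hMi, hdn, hn1, ?_, hr1⟩
  have h5 : ⟪c, γ 1 - γ 0⟫ ≤ R * C₁ := by
    rw [← hci]
    calc ∫ t in (0 : ℝ)..1, ⟪c, deriv γ t⟫ ≤ ∫ t in (0 : ℝ)..1, R * ‖deriv γ t‖ := by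
          refine intervalIntegral.integral_mono_on zero_le_one hdc (hdn.const_mul R) ?_
          intro t _
          exact (real_inner_le_norm _ _).trans (mul_le_mul_of_nonneg_right hc (norm_nonneg _))
      _ = R * ∫ t in (0 : ℝ)..1, ‖deriv γ t‖ := intervalIntegral.integral_const_mul _ _
      _ ≤ R * C₁ := mul_le_mul_of_nonneg_left hn1 hC.hR
  have h6 := hC.h3
  linarith

end Pool.Agent.H68.TO
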