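import Pool.Agent.H68.TO.Def

/-!
# Module Tht: the density of the change of time
On `[0, 1]`: `U = {g > ρ}`, `G = {g ≤ V}` (disjoint, since `V < 2 V ≤ ρ`). `τ := ∫ max (g / ρ - 1) 0`, so
`0 ≤ τ ≤ (∫ g)/ρ ≤ 1/8` (from `8 C₁ ≤ ρ`; note `V ≥ 1`, `ρ ≥ 2`). Markov: `|[0,1] \ G| ≤ C₁ / V ≤ 1/2`, so `m := |G| ≥ 1/2`.
`θ := g / ρ` on `U`, `θ := 1 - τ / m` on `G` (`≥ 3/4`), `θ := 1` elsewhere and outside of `[0, 1]`. Then
`max (θ - 1) 0 = max (g / ρ - 1) 0` on `[0, 1]` and `max (1 - θ) 0 = (τ / m) 1_G`, and `θ = 1 + max (θ - 1) 0 - max (1 - θ) 0`.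
-/

set_option autoImplicit false

open MeasureTheory Filter

namespace Pool.Agent.H68.TO

theorem tht {g : ℝ → ℝ} {C₁ V ρ : ℝ} (hm : Measurable g) (hg : IntervalIntegrable g volume 0 1)
    (h0 : ∀ t, 0 ≤ g t) (hC : ∫ t in (0 : ℝ)..1, g t ≤ C₁) (hC₁ : 0 ≤ C₁) (hV : 2 * C₁ + 1 ≤ V)
    (hρC : 8 * C₁ ≤ ρ) (hρV : 2 * V ≤ ρ) :
    ∃ (θ : ℝ → ℝ) (τ : ℝ), 0 ≤ τ ∧ Th g θ V ρ τ := by
  classical
  have hV1 : 1 ≤ V := by linarith
  have hρ2 : 2 ≤ ρ := by linarith
  have hρ0 : 0 < ρ := by linarith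
  have hV0 : 0 < V := by linarith
  -- the excess of the speed
  let p : ℝ → ℝ := fun t => max (g t / ρ - 1) 0
  -- the slow part
  let q : ℝ → ℝ := fun t => if g t ≤ V then 1 else 0
  have hpm : Measurable p := ((hm.div_const ρ).sub_const 1).max measurable_const
  have hqm : Measurable q := Measurable.ite (measurableSet_le hm measurable_const) measurable_const measurable_const
  have hp0 : ∀ t, 0 ≤ p t := fun t => le_max_right _ _
  have hgρ : ∀ t, 0 ≤ g t / ρ := fun t => div_nonneg (h0 t) hρ0.le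
  have hpg : ∀ t, p t ≤ g t / ρ := fun t => max_le (by linarith) (hgρ t)
  have hq0 : ∀ t, 0 ≤ q t := by
    intro t
    show (0 : ℝ) ≤ if g t ≤ V then 1 else 0
    split_ifs <;> norm_num
  have hq1 : ∀ t, q t ≤ 1 := by
    intro t
    show (if g t ≤ V then (1 : ℝ) else 0) ≤ 1
    split_ifs <;> norm_num
  have hpq : ∀ t, g t ≤ V → p t = 0 := by
    intro t ht
    refine max_eq_right ?_
    rw [sub_nonpos, div_le_one hρ0]
    linarith
  have hgi : IntervalIntegrable (fun t => g t / ρ) volume 0 1 := hg.div_const ρ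
  have hpi : IntervalIntegrable p volume 0 1 := by
    refine hgi.mono_fun' hpm.aestronglyMeasurable ?_
    exact Eventually.of_forall fun t => by
      show ‖p t‖ ≤ g t / ρ
      rw [Real.norm_of_nonneg (hp0 t)]
      exact hpg t
  have hqi : IntervalIntegrable q volume 0 1 := by
    refine (intervalIntegrable_const (c := (1 : ℝ))).mono_fun' hqm.aestronglyMeasurable ?_
    exact Eventually.of_forall fun t => by
      show ‖q t‖ ≤ 1
      rw [Real.norm_of_nonneg (hq0 t)]
      exact hq1 t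
  set τ : ℝ := ∫ t in (0 : ℝ)..1, p t with hτ
  set m : ℝ := ∫ t in (0 : ℝ)..1, q t with hmd
  have hτ0 : 0 ≤ τ := intervalIntegral.integral_nonneg zero_le_one fun t _ => hp0 t
  have hτ8 : τ ≤ 1 / 8 := by
    have h1 : τ ≤ ∫ t in (0 : ℝ)..1, g t / ρ :=
      intervalIntegral.integral_mono_on zero_le_one hpi hgi fun t _ => hpg t
    rw [intervalIntegral.integral_div] at h1
    have h2 : (∫ t in (0 : ℝ)..1, g t) / ρ ≤ 1 / 8 := by
      rw [div_le_iff₀ hρ0]
      linarith
    exact h1.trans h2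
  have hm2 : 1 / 2 ≤ m := by
    have h1 : ∫ t in (0 : ℝ)..1, (1 - g t / V) ≤ m := by
      refine intervalIntegral.integral_mono_on zero_le_one (intervalIntegrable_const.sub (hg.div_const V)) hqi fun t _ => ?_
      show 1 - g t / V ≤ if g t ≤ V then 1 else 0
      split_ifs with h2
      · have h3 : 0 ≤ g t / V := div_nonneg (h0 t) hV0.le
        linarith
      · push Not at h2
        have h3 : 1 ≤ g t / V := by
          rw [le_div_iff₀ hV0]
          linarith
        linarith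
    rw [intervalIntegral.integral_sub intervalIntegrable_const (hg.div_const V), intervalIntegral.integral_div] at h1
    simp only [intervalIntegral.integral_const, sub_zero, smul_eq_mul, mul_one] at h1
    have h2 : (∫ t in (0 : ℝ)..1, g t) / V ≤ 1 / 2 := by
      rw [div_le_iff₀ hV0]
      linarith
    linarith
  have hm0 : 0 < m := by linarith
  have hτm : τ / m ≤ 1 / 4 := by
    rw [div_le_iff₀ hm0]
    linarith
  have hτm0 : 0 ≤ τ / m := div_nonneg hτ0 hm0.le
  -- the density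
  let θ : ℝ → ℝ := fun t => if t ∈ Set.Icc (0 : ℝ) 1 then 1 + p t - τ / m * q t else 1
  have hθ : ∀ t ∈ Set.Icc (0 : ℝ) 1, θ t = 1 + p t - τ / m * q t := fun t ht => if_pos ht
  have hθm : Measurable θ :=
    Measurable.ite measurableSet_Icc ((measurable_const.add hpm).sub (hqm.const_mul _)) measurable_const
  -- the cases
  have hcase : ∀ t, (g t ≤ V ∧ p t = 0 ∧ q t = 1) ∨ (V < g t ∧ g t ≤ ρ ∧ p t = 0 ∧ q t = 0) ∨
      (ρ < g t ∧ p t = g t / ρ - 1 ∧ q t = 0 ∧ 1 < g t / ρ) := by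
    intro t
    rcases le_or_gt (g t) V with h1 | h1
    · exact Or.inl ⟨h1, hpq t h1, if_pos h1⟩
    · right
      rcases le_or_gt (g t) ρ with h2 | h2
      · refine Or.inl ⟨h1, h2, max_eq_right ?_, if_neg (not_le.2 h1)⟩
        rw [sub_nonpos, div_le_one hρ0]
        exact h2
      · have h3 : 1 < g t / ρ := by
          rw [lt_div_iff₀ hρ0]
          linarith
        exact Or.inr ⟨h2, max_eq_left (by linarith), if_neg (not_le.2 h1), h3⟩
  have huIcc : Set.uIcc (0 : ℝ) 1 = Set.Icc 0 1 := Set.uIcc_of_le zero_le_one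
  have hθi' : IntervalIntegrable (fun t => 1 + p t - τ / m * q t) volume 0 1 :=
    (intervalIntegrable_const.add hpi).sub (hqi.const_mul _)
  have hθi : IntervalIntegrable θ volume 0 1 := by
    refine hθi'.congr_ae ((ae_restrict_iff' measurableSet_uIoc).2 (Eventually.of_forall fun t ht => ?_))
    rw [Set.uIoc_of_le zero_le_one] at ht
    exact (hθ t ⟨ht.1.le, ht.2⟩).symm
  refine ⟨θ, τ, hτ0, hθm, hθi, ?_, ?_, ?_, ?_, ?_, ?_, ?_, ?_⟩
  · intro t
    by_cases ht : t ∈ Set.Icc (0 : ℝ) 1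
    · rw [hθ t ht]
      have h1 : τ / m * q t ≤ 1 / 4 := by
        have h2 : τ / m * q t ≤ τ / m * 1 := mul_le_mul_of_nonneg_left (hq1 t) hτm0
        linarith
      have h3 := hp0 t
      linarith
    · rw [show θ t = 1 from if_neg ht]
      norm_num
  · intro t ht
    exact if_neg ht
  · have h1 : ∫ t in (0 : ℝ)..1, θ t = ∫ t in (0 : ℝ)..1, (1 + p t - τ / m * q t) :=
      intervalIntegral.integral_congr fun t ht => hθ t (by rwa [huIcc] at ht)
    rw [h1, intervalIntegral.integral_sub (intervalIntegrable_const.add hpi) (hqi.const_mul _),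
      intervalIntegral.integral_add intervalIntegrable_const hpi, intervalIntegral.integral_const_mul, ← hτ, ← hmd,
      div_mul_cancel₀ _ hm0.ne']
    simp
  · have h1 : ∫ t in (0 : ℝ)..1, max (θ t - 1) 0 = ∫ t in (0 : ℝ)..1, p t := by
      refine intervalIntegral.integral_congr fun t ht => ?_
      rw [huIcc] at ht
      show max (θ t - 1) 0 = p t
      rw [hθ t ht]
      rcases hcase t with ⟨_, h2, h3⟩ | ⟨_, _, h2, h3⟩ | ⟨_, h2, h3, h4⟩
      · rw [h2, h3]
        refine max_eq_right ?_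
        linarith
      · rw [h2, h3]
        simp
      · rw [h2, h3]
        refine (max_eq_left ?_).trans ?_ <;> linarith
    rw [h1]
  · have h1 : ∫ t in (0 : ℝ)..1, max (1 - θ t) 0 = ∫ t in (0 : ℝ)..1, τ / m * q t := by
      refine intervalIntegral.integral_congr fun t ht => ?_
      rw [huIcc] at ht
      show max (1 - θ t) 0 = τ / m * q t
      rw [hθ t ht]
      rcases hcase t with ⟨_, h2, h3⟩ | ⟨_, _, h2, h3⟩ | ⟨_, h2, h3, h4⟩
      · rw [h2, h3]
        refine (max_eq_left ?_).trans ?_ <;> linarith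
      · rw [h2, h3]
        simp
      · rw [h2, h3, mul_zero]
        refine max_eq_right ?_
        linarith
    rw [h1, intervalIntegral.integral_const_mul, ← hmd, div_mul_cancel₀ _ hm0.ne']
  · intro t ht
    rw [hθ t ht]
    rcases hcase t with ⟨h1, h2, h3⟩ | ⟨_, h1, h2, h3⟩ | ⟨_, h2, h3, h4⟩
    · rw [h2, h3]
      nlinarith
    · rw [h2, h3]
      linarith
    · rw [h2, h3]
      have h5 : g t / ρ * ρ = g t := div_mul_cancel₀ _ hρ0.ne'
      have h6 : (1 + (g t / ρ - 1) - τ / m * 0) * ρ = g t / ρ * ρ := by ring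
      rw [h6, h5]
  · intro t ht h
    rw [hθ t ht] at h ⊢
    rcases hcase t with ⟨h1, h2, h3⟩ | ⟨_, h1, h2, h3⟩ | ⟨_, h2, h3, h4⟩
    · rw [h2, h3] at h
      linarith
    · rw [h2, h3] at h
      linarith
    · rw [h2, h3]
      have h5 : g t / ρ * ρ = g t := div_mul_cancel₀ _ hρ0.ne'
      have h6 : (1 + (g t / ρ - 1) - τ / m * 0) * ρ = g t / ρ * ρ := by ring
      rw [h6, h5]
  · intro t ht h
    rw [hθ t ht] at h
    rcases hcase t with ⟨h1, h2, h3⟩ | ⟨_, h1, h2, h3⟩ | ⟨_, h2, h3, h4⟩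
    · exact h1
    · rw [h2, h3] at h
      linarith
    · rw [h2, h3] at h
      linarith

end Pool.Agent.H68.TO
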