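import Pool.Agent.H68.TO.Def

/-!
# Module Tim: the change of time
`θ` is integrable on `[0, 1]` and `1` outside, so integrable on every interval. `T s = ∫ u in 0..s, θ u`, `T 0 = 0`,
`T 1 = 1`; `T t - T s = ∫_s^t θ ≥ (t - s)/2` for `s ≤ t`, so `T` is strictly monotone; continuous (primitive);
`T s = s` for `s ≤ 0` and `s ≥ 1`, so `T` is surjective (intermediate values); `S` its inverse, `2`-Lipschitz.
`der`: Lebesgue differentiation, `IntervalIntegrable.ae_hasDerivAt_integral` (or
`MeasureTheory.LocallyIntegrable.ae_hasDerivAt_integral`) on all intervals `[-N, N]`.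
`|T u - u| ≤ τ` on `[0, 1]`: `T u - u = ∫_0^u (θ - 1)`, between `-∫_0^1 max (1 - θ) 0` and `∫_0^1 max (θ - 1) 0`.
-/

set_option autoImplicit false

open MeasureTheory Filter

namespace Pool.Agent.H68.TO

private theorem tim_loc {g θ : ℝ → ℝ} {V ρ τ : ℝ} (h : Th g θ V ρ τ) : LocallyIntegrable θ volume := by
  have h1 : IntegrableOn (fun t => θ t - 1) (Set.Icc (0 : ℝ) 1) volume := by
    have h2 : IntervalIntegrable (fun t => θ t - 1) volume 0 1 := h.int.sub intervalIntegrable_const
    rw [intervalIntegrable_iff_integrableOn_Icc_of_le zero_le_one] at h2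
    exact h2
  have h3 : Integrable ((Set.Icc (0 : ℝ) 1).indicator fun t => θ t - 1) volume :=
    h1.integrable_indicator measurableSet_Icc
  have h4 : LocallyIntegrable (((Set.Icc (0 : ℝ) 1).indicator fun t => θ t - 1) + fun _ => (1 : ℝ)) volume :=
    h3.locallyIntegrable.add (continuous_const.locallyIntegrable)
  have h5 : (((Set.Icc (0 : ℝ) 1).indicator fun t => θ t - 1) + fun _ => (1 : ℝ)) = θ := by
    funext t
    rw [Pi.add_apply]
    by_cases ht : t ∈ Set.Icc (0 : ℝ) 1
    · rw [Set.indicator_of_mem ht]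
      ring
    · rw [Set.indicator_of_notMem ht, h.out t ht]
      ring
  rw [h5] at h4
  exact h4

private theorem tim_int {g θ : ℝ → ℝ} {V ρ τ : ℝ} (h : Th g θ V ρ τ) (a b : ℝ) :
    IntervalIntegrable θ volume a b :=
  intervalIntegrable_iff.mpr <|
    ((tim_loc h).integrableOn_isCompact isCompact_uIcc).mono_set Set.uIoc_subset_uIcc

private theorem tim_key {g θ : ℝ → ℝ} {V ρ τ : ℝ} (h : Th g θ V ρ τ) (s t : ℝ) (hst : s ≤ t) :
    (t - s) / 2 ≤ (∫ u in (0 : ℝ)..t, θ u) - ∫ u in (0 : ℝ)..s, θ u := by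
  rw [intervalIntegral.integral_interval_sub_left (tim_int h 0 t) (tim_int h 0 s)]
  have h1 : (∫ _u in s..t, (1 / 2 : ℝ)) ≤ ∫ u in s..t, θ u :=
    intervalIntegral.integral_mono_on hst intervalIntegrable_const (tim_int h s t) fun x _ => h.lo x
  rw [intervalIntegral.integral_const, smul_eq_mul] at h1
  linarith

theorem tim {g θ : ℝ → ℝ} {V ρ τ : ℝ} (h : Th g θ V ρ τ) :
    ∃ T S : ℝ → ℝ, Tm θ T S ∧ ∀ u ∈ Set.Icc (0 : ℝ) 1, |T u - u| ≤ τ := by
  have hint := tim_int h
  have hkey := tim_key h
  have hcont : Continuous fun s : ℝ => ∫ u in (0 : ℝ)..s, θ u := intervalIntegral.continuous_primitive hint 0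
  have h0 : (∫ u in (0 : ℝ)..0, θ u) = 0 := intervalIntegral.integral_same
  have hmono : StrictMono fun s : ℝ => ∫ u in (0 : ℝ)..s, θ u := by
    intro s t hst
    have h1 := hkey s t hst.le
    show (∫ u in (0 : ℝ)..s, θ u) < ∫ u in (0 : ℝ)..t, θ u
    linarith
  have hsurj : Function.Surjective fun s : ℝ => ∫ u in (0 : ℝ)..s, θ u := by
    refine hcont.surjective ?_ ?_
    · rw [tendsto_atTop]
      intro b
      filter_upwards [eventually_ge_atTop (max 0 (2 * b))] with t ht
      have h1 := hkey 0 t (le_trans (le_max_left _ _) ht)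
      have h2 := le_trans (le_max_right _ _) ht
      show b ≤ ∫ u in (0 : ℝ)..t, θ u
      linarith
    · rw [tendsto_atBot]
      intro b
      filter_upwards [eventually_le_atBot (min 0 (2 * b))] with t ht
      have h1 := hkey t 0 (le_trans ht (min_le_left _ _))
      have h2 := le_trans ht (min_le_right _ _)
      show (∫ u in (0 : ℝ)..t, θ u) ≤ b
      linarith
  choose S hS using hsurj
  have hS' : ∀ t, (∫ u in (0 : ℝ)..S t, θ u) = t := hS
  refine ⟨fun s => ∫ u in (0 : ℝ)..s, θ u, S, ?_, ?_⟩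
  · refine ⟨hint, fun s => rfl, h0, h.one, hmono, hcont, ?_, ?_, hS, ?_⟩
    · filter_upwards [LocallyIntegrable.ae_hasDerivAt_integral (tim_loc h)] with x hx
      exact hx 0
    · intro u
      exact hmono.injective (hS _)
    · intro s t
      rcases le_total (S s) (S t) with h1 | h1
      · have h2 := hkey _ _ h1
        rw [hS', hS'] at h2
        rw [abs_of_nonneg (sub_nonneg.2 h1)]
        have h3 := le_abs_self (t - s)
        linarith
      · have h2 := hkey _ _ h1
        rw [hS', hS'] at h2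
        rw [abs_of_nonpos (sub_nonpos.2 h1)]
        have h3 := neg_le_abs (t - s)
        linarith
  · intro u hu
    show |(∫ x in (0 : ℝ)..u, θ x) - u| ≤ τ
    have e1 : (∫ x in (0 : ℝ)..u, θ x) - u = ∫ x in (0 : ℝ)..u, (θ x - 1) := by
      rw [intervalIntegral.integral_sub (hint 0 u) intervalIntegrable_const, intervalIntegral.integral_const]
      simp
    have i1 : ∀ a b : ℝ, IntervalIntegrable (fun x => θ x - 1) volume a b := fun a b =>
      (hint a b).sub intervalIntegrable_const
    have i2 : ∀ a b : ℝ, IntervalIntegrable (fun x => max (θ x - 1) 0) volume a b := by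
      intro a b
      have h1 := i1 a b
      refine ⟨h1.1.pos_part, h1.2.pos_part⟩
    have i3 : ∀ a b : ℝ, IntervalIntegrable (fun x => max (1 - θ x) 0) volume a b := by
      intro a b
      have h1 : IntervalIntegrable (fun x => 1 - θ x) volume a b := intervalIntegrable_const.sub (hint a b)
      refine ⟨h1.1.pos_part, h1.2.pos_part⟩
    rw [e1, abs_le]
    constructor
    · have h1 : (∫ x in (0 : ℝ)..u, max (1 - θ x) 0) ≤ ∫ x in (0 : ℝ)..1, max (1 - θ x) 0 :=
        intervalIntegral.integral_mono_interval le_rfl hu.1 hu.2 (Eventually.of_forall fun x => le_max_right _ _) (i3 0 1)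
      have h2 : (∫ x in (0 : ℝ)..u, -(θ x - 1)) ≤ ∫ x in (0 : ℝ)..u, max (1 - θ x) 0 := by
        refine intervalIntegral.integral_mono_on hu.1 (i1 0 u).neg (i3 0 u) fun x _ => ?_
        have h3 := le_max_left (1 - θ x) 0
        linarith
      rw [intervalIntegral.integral_neg] at h2
      rw [h.dn] at h1
      linarith
    · have h1 : (∫ x in (0 : ℝ)..u, max (θ x - 1) 0) ≤ ∫ x in (0 : ℝ)..1, max (θ x - 1) 0 :=
        intervalIntegral.integral_mono_interval le_rfl hu.1 hu.2 (Eventually.of_forall fun x => le_max_right _ _) (i2 0 1)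
      have h2 : (∫ x in (0 : ℝ)..u, (θ x - 1)) ≤ ∫ x in (0 : ℝ)..u, max (θ x - 1) 0 := by
        refine intervalIntegral.integral_mono_on hu.1 (i1 0 u) (i2 0 u) fun x _ => ?_
        exact le_max_left (θ x - 1) 0
      rw [h.up] at h1
      linarith

end Pool.Agent.H68.TO
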