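import Pool.Agent.H68.TO.Sht
import Pool.Agent.H68.TO.Pre
import Pool.Agent.H68.TO.LpI
import Pool.Agent.H68.TO.Tht
import Pool.Agent.H68.TO.Tim
import Pool.Agent.H68.TO.Cov
import Pool.Agent.H68.TO.Cur
import Pool.Agent.H68.TO.Ineq

/-!
# Module Step: a curve of time one can be replaced by a Lipschitz curve
If `r > C₂ + a` take `sht` (with `x = γ 0`, `y = γ 1`; `√n ≤ ρ`). Otherwise `pre`, then `tht` with `g = ‖deriv γ ·‖`
(`measurable_deriv`), `tim`, `cur`, and `z = 0`. The new action is (`lpi_crv`)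
`∫ M(δ, δ', t) - c · (γ 1 - γ 0) + a`; by `cov` with `g t = M (δ t) (deriv δ t) t` (integrable by `lpi_int`) and the a.e.
formulas of `cur`: `∫ M(δ, δ', t) = ∫ θ M(γ, θ⁻¹ γ', T u) du`, which by `ineq` is at most
`(1 + K τ)(∫ M(γ, γ', u) + e₀ τ - e τ) + K τ D ≤ ∫ M(γ, γ', u)`, because `∫ M ≤ C₃`, `e ≥ e₀ + K (C₃ + D)`.
-/

set_option autoImplicit false

open MeasureTheory Filter
open scoped RealInnerProductSpace

namespace Pool.Agent.H68.TO

open Pool.Agent.H33.AM (E Tor pr IsPeriodic)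
open Pool.Agent.H68.HD

variable {n : ℕ}

theorem step {M : E n → E n → ℝ → ℝ} {R B K D C₀ C₁ C₂ C₃ e₀ e V ρ : ℝ}
    (hM : Slow M R B K D C₀ e₀ e V ρ) (hC : Cst n R B K D C₀ C₁ C₂ C₃ e₀ e V ρ) {c : E n}
    (hc : ‖c‖ ≤ R) {a r : ℝ} {γ : ℝ → E n} (h : Crv M c a 1 γ r) :
    ∃ (δ : ℝ → E n) (r' : ℝ) (z : Fin n → ℤ), Crv M c a 1 δ r' ∧ r' ≤ r ∧
      δ 0 = γ 0 ∧ δ 1 = γ 1 + zv z ∧ ∀ t, ‖deriv δ t‖ ≤ ρ := by
  have hρ0 : 0 ≤ ρ := le_trans zero_le_one hC.hρ1
  rcases lt_or_ge (C₂ + a) r with hr | hr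
  · obtain ⟨δ, r', z, h1, h2, h3, h4, h5⟩ := sht hM hC.hR hc a (γ 0) (γ 1)
    refine ⟨δ, r', z, h1, ?_, h3, h4, fun t => (h5 t).trans hC.hρn⟩
    have h6 := hC.h2
    linarith
  · obtain ⟨hI1, hI2, hI3, hI4, hI5⟩ := pre hM hC hc h hr
    obtain ⟨θ, τ, hτ0, hθ⟩ := tht (g := fun t => ‖deriv γ t‖) (measurable_deriv γ).norm hI2
      (fun t => norm_nonneg _) hI3 hC.hC₁ hC.hV hC.hρC hC.hρV
    obtain ⟨T, S, hT, hTu⟩ := tim hθ
    have hac : AbsolutelyContinuousOnInterval γ 0 1 := by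
      have h1 := h.ac
      rwa [Nat.cast_one] at h1
    obtain ⟨δ, hδ0, hδ1, hδL, hδae⟩ := cur hac hρ0 hθ hT
    refine ⟨δ, _, 0, lpi_crv hM.cont hρ0 hδL c a, ?_, hδ0, by rw [zv_zero, add_zero, hδ1],
      lpi_deriv hρ0 hδL⟩
    rw [hI5, hδ0, hδ1]
    suffices hmain : ∫ t in (0 : ℝ)..1, M (δ t) (deriv δ t) t ≤
        ∫ t in (0 : ℝ)..1, M (γ t) (deriv γ t) t by linarith
    obtain ⟨hJ1, hJ2⟩ := cov hT hθ.meas hθ.lo (lpi_int hM.cont hρ0 hδL)
    rw [hJ2]
    set I : ℝ := ∫ t in (0 : ℝ)..1, M (γ t) (deriv γ t) t with hI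
    -- the lower bound of the action
    have hlow : -B ≤ I := by
      have h1 : ∫ _t in (0 : ℝ)..1, (-B) = -B := by
        rw [intervalIntegral.integral_const]
        simp
      rw [← h1, hI]
      refine intervalIntegral.integral_mono_on zero_le_one intervalIntegrable_const hI1
        fun t _ => ?_
      have h2 := hM.lo (γ t) (deriv γ t) t
      have h3 : 0 ≤ (R + 1) * ‖deriv γ t‖ :=
        mul_nonneg (by linarith [hC.hR]) (norm_nonneg _)
      linarith
    -- integrability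
    have hd1 : IntervalIntegrable (fun t => max (1 - θ t) 0) volume 0 1 := by
      have h1 : IntervalIntegrable (fun t => 1 - θ t) volume 0 1 :=
        (intervalIntegrable_const (c := (1 : ℝ))).sub hθ.int
      exact ⟨h1.1.pos_part, h1.2.pos_part⟩
    have hd2 : IntervalIntegrable (fun t => max (θ t - 1) 0) volume 0 1 := by
      have h1 : IntervalIntegrable (fun t => θ t - 1) volume 0 1 :=
        hθ.int.sub (intervalIntegrable_const (c := (1 : ℝ)))
      exact ⟨h1.1.pos_part, h1.2.pos_part⟩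
    have hF1 : IntervalIntegrable (fun t => M (γ t) (deriv γ t) t + e₀ * max (1 - θ t) 0) volume 0 1 :=
      hI1.add (hd1.const_mul e₀)
    have hF2 : IntervalIntegrable (fun t => M (γ t) (deriv γ t) t + e₀ * max (1 - θ t) 0 -
        e * max (θ t - 1) 0) volume 0 1 := hF1.sub (hd2.const_mul e)
    have hF3 : IntervalIntegrable (fun t => (1 + K * τ) * (M (γ t) (deriv γ t) t +
        e₀ * max (1 - θ t) 0 - e * max (θ t - 1) 0)) volume 0 1 := hF2.const_mul _
    have hF4 : IntervalIntegrable (fun t => K * τ * D * θ t) volume 0 1 := hθ.int.const_mul _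
    have hle : ∫ u in (0 : ℝ)..1, θ u * M (δ (T u)) (deriv δ (T u)) (T u) ≤
        ∫ u in (0 : ℝ)..1, ((1 + K * τ) * (M (γ u) (deriv γ u) u +
          e₀ * max (1 - θ u) 0 - e * max (θ u - 1) 0) + K * τ * D * θ u) := by
      refine intervalIntegral.integral_mono_ae_restrict zero_le_one hJ1 (hF3.add hF4) ?_
      refine (ae_restrict_iff' measurableSet_Icc).2 ?_
      filter_upwards [hδae] with u hu hu'
      obtain ⟨h1, h2⟩ := hu hu'
      show θ u * M (δ (T u)) (deriv δ (T u)) (T u) ≤ _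
      rw [h1, h2]
      exact ineq hM hC (γ u) (deriv γ u) (hθ.lo u) (hθ.fast u hu') (hθ.slow u hu') (hTu u hu')
    refine hle.trans ?_
    rw [intervalIntegral.integral_add hF3 hF4, intervalIntegral.integral_const_mul,
      intervalIntegral.integral_const_mul, intervalIntegral.integral_sub hF1 (hd2.const_mul e),
      intervalIntegral.integral_add hI1 (hd1.const_mul e₀), intervalIntegral.integral_const_mul,
      intervalIntegral.integral_const_mul, hθ.one, hθ.up, hθ.dn, ← hI]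
    have h1 := hC.he
    have h2 := hC.hK
    have h3 := hC.hD
    have h4 : K * (I + D) ≤ K * (C₃ + D) := mul_le_mul_of_nonneg_left (by linarith) h2
    have h5 : 0 ≤ K * (I + D) := mul_nonneg h2 (by linarith)
    have h6 : τ * (K * (I + D)) ≤ τ * (e - e₀) := mul_le_mul_of_nonneg_left (by linarith) hτ0
    have h7 : 0 ≤ K * τ * (τ * (e - e₀)) :=
      mul_nonneg (mul_nonneg h2 hτ0) (mul_nonneg hτ0 (by linarith))
    nlinarith

end Pool.Agent.H68.TO
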