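import Pool.Agent.H68.TO.Def

/-!
# Module Sht: short straight curves
Take `z` from `exists_near (y - x)` (HD/Base), `w := y - x + zv z`, `‖w‖ ≤ √n`, `δ t = x + t • w`: `deriv δ = w`,
absolutely continuous (it is Lipschitz: `LipschitzOnWith.absolutelyContinuousOnInterval`, or `ac_integral` of AC0 with
a constant), integrand continuous, `M(δ, w, t) - c · w + a ≤ C₀ + R √n + a` by `hM.short` and Cauchy-Schwarz.
-/

set_option autoImplicit false

open MeasureTheory Filter
open scoped RealInnerProductSpace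

namespace Pool.Agent.H68.TO

open Pool.Agent.H33.AM (E Tor pr IsPeriodic)
open Pool.Agent.H68.HD

variable {n : ℕ}

theorem sht {M : E n → E n → ℝ → ℝ} {R B K D C₀ e₀ e V ρ : ℝ}
    (hM : Slow M R B K D C₀ e₀ e V ρ) (hR : 0 ≤ R) {c : E n} (hc : ‖c‖ ≤ R) (a : ℝ) (x y : E n) :
    ∃ (δ : ℝ → E n) (r : ℝ) (z : Fin n → ℤ), Crv M c a 1 δ r ∧ r ≤ C₀ + R * Real.sqrt n + a ∧
      δ 0 = x ∧ δ 1 = y + zv z ∧ ∀ t, ‖deriv δ t‖ ≤ Real.sqrt n := by
  obtain ⟨z, hz, -⟩ := exists_near (y - x)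
  set w : E n := y - x + zv z with hw
  have hd : ∀ t : ℝ, HasDerivAt (fun t : ℝ => x + t • w) w t := by
    intro t
    have h1 : HasDerivAt (fun t : ℝ => t • w) ((1 : ℝ) • w) t := (hasDerivAt_id t).smul_const w
    rw [one_smul] at h1
    exact h1.const_add x
  have hder : ∀ t : ℝ, deriv (fun t : ℝ => x + t • w) t = w := fun t => (hd t).deriv
  have hcont : Continuous fun t : ℝ => M (x + t • w) w t - ⟪c, w⟫ + a := by
    have h1 : Continuous fun t : ℝ => ((x + t • w, w, t) : E n × E n × ℝ) := by fun_prop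
    have h2 := hM.cont.comp h1
    exact (h2.sub continuous_const).add continuous_const
  have hle : ∀ t : ℝ, M (x + t • w) w t - ⟪c, w⟫ + a ≤ C₀ + R * Real.sqrt n + a := by
    intro t
    have h1 := hM.short (x + t • w) w t hz
    have h2 : |⟪c, w⟫| ≤ ‖c‖ * ‖w‖ := abs_real_inner_le_norm c w
    have h3 : ‖c‖ * ‖w‖ ≤ R * Real.sqrt n := mul_le_mul hc hz (norm_nonneg _) hR
    have h4 := neg_abs_le ⟪c, w⟫
    linarith
  refine ⟨fun t => x + t • w, ∫ t in (0 : ℝ)..((1 : ℕ) : ℝ), (M (x + t • w) w t - ⟪c, w⟫ + a), z,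
    ⟨?_, ?_, ?_⟩, ?_, ?_, ?_, ?_⟩
  · have hL : LipschitzOnWith ‖w‖₊ (fun t : ℝ => x + t • w) (Set.uIcc 0 ((1 : ℕ) : ℝ)) := by
      refine (LipschitzWith.of_dist_le_mul fun s t => ?_).lipschitzOnWith
      rw [dist_add_left, dist_eq_norm, ← sub_smul, norm_smul, Real.dist_eq, Real.norm_eq_abs, mul_comm]
      rfl
    exact hL.absolutelyContinuousOnInterval
  · simp only [hder]
    exact hcont.intervalIntegrable _ _
  · simp only [hder]
  · have h1 : (0 : ℝ) ≤ ((1 : ℕ) : ℝ) := by norm_num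
    have h2 := intervalIntegral.integral_mono_on (μ := volume) h1 (hcont.intervalIntegrable _ _)
      (intervalIntegrable_const (c := C₀ + R * Real.sqrt n + a)) (fun t _ => hle t)
    rw [intervalIntegral.integral_const] at h2
    simpa using h2
  · simp
  · simp only [one_smul, hw]
    abel
  · intro t
    rw [hder]
    exact hz

end Pool.Agent.H68.TO
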