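import Pool.Agent.H68.TO.Gl

/-!
# Module Dom: equality of `α` and of the Aubry sets from mutual domination
Sets `A`, `A'` of reals such that every element of each is at least some element of the other have the same lower
bounds, both are empty or not, so `sInf A = sInf A'` (also if they are not bounded below: `Real.sInf_of_not_bddBelow`).
`loopMeans`: `Crv L c 0 k γ r` with `r / k`; `pr (γ 0) = pr (γ k)` gives `pr (δ 0) = pr (δ k)` (`pr_eq_pr`). So
`alpha L c = alpha M c`. Then `curveActions` with `a = alpha L c = alpha M c` for all `k x y`, so `peierls` agree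
and the Aubry sets agree.
-/

set_option autoImplicit false

open MeasureTheory Filter
open scoped RealInnerProductSpace

namespace Pool.Agent.H68.TO

open Pool.Agent.H33.AM (E Tor pr IsPeriodic)
open Pool.Agent.H68.HD

variable {n : ℕ}

/-- mutual domination gives the same infimum -/
private theorem sInf_dom {A B : Set ℝ} (h1 : ∀ a ∈ A, ∃ b ∈ B, b ≤ a) (h2 : ∀ b ∈ B, ∃ a ∈ A, a ≤ b) :
    sInf A = sInf B := by
  rcases A.eq_empty_or_nonempty with hA | hA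
  · have hB : B = ∅ := by
      refine Set.eq_empty_of_forall_notMem fun b hb => ?_
      obtain ⟨a, ha, -⟩ := h2 b hb
      rw [hA] at ha
      exact ha
    rw [hA, hB]
  · obtain ⟨a₀, ha₀⟩ := hA
    obtain ⟨b₀, hb₀, -⟩ := h1 a₀ ha₀
    by_cases hb : BddBelow A
    · have hb' : BddBelow B := by
        obtain ⟨m, hm⟩ := hb
        refine ⟨m, fun b hbB => ?_⟩
        obtain ⟨a, ha, hab⟩ := h2 b hbB
        exact (hm ha).trans hab
      refine le_antisymm (le_csInf ⟨b₀, hb₀⟩ fun b hbB => ?_) (le_csInf ⟨a₀, ha₀⟩ fun a haA => ?_)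
      · obtain ⟨a, ha, hab⟩ := h2 b hbB
        exact (csInf_le hb ha).trans hab
      · obtain ⟨b, hbB, hba⟩ := h1 a haA
        exact (csInf_le hb' hbB).trans hba
    · have hb' : ¬ BddBelow B := by
        rintro ⟨m, hm⟩
        refine hb ⟨m, fun a haA => ?_⟩
        obtain ⟨b, hbB, hba⟩ := h1 a haA
        exact (hm hbB).trans hba
      rw [Real.sInf_of_not_bddBelow hb, Real.sInf_of_not_bddBelow hb']

/-- domination of the means of closed curves -/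
private theorem loop_dom {L M : E n → E n → ℝ → ℝ} (hL : IsPeriodic L) (hM : IsPeriodic M) {c : E n}
    (h1 : ∀ (a : ℝ) (γ : ℝ → E n) (r : ℝ), Crv L c a 1 γ r →
      ∃ (δ : ℝ → E n) (r' : ℝ) (z : Fin n → ℤ),
        Crv M c a 1 δ r' ∧ r' ≤ r ∧ δ 0 = γ 0 ∧ δ 1 = γ 1 + zv z) :
    ∀ a ∈ loopMeans L c, ∃ b ∈ loopMeans M c, b ≤ a := by
  rintro _ ⟨k, γ, hk, hac, hpr, hint, rfl⟩
  have hc : Crv L c 0 k γ (∫ t in (0 : ℝ)..k, (L (γ t) (deriv γ t) t - ⟪c, deriv γ t⟫ + 0)) :=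
    ⟨hac, by simpa only [add_zero] using hint, rfl⟩
  obtain ⟨δ, r', z, hδ, hr, h0, hk'⟩ := gl hL hM (h1 0) k hc
  refine ⟨r' / k, ⟨k, δ, hk, hδ.ac, ?_, by simpa only [add_zero] using hδ.int, ?_⟩, ?_⟩
  · rw [h0, hpr, hk']
    exact pr_eq_pr.2 ⟨z, rfl⟩
  · rw [hδ.eq]
    simp only [add_zero]
  · simp only [add_zero] at hr
    have hk0 : (0 : ℝ) < k := by exact_mod_cast hk
    exact div_le_div_of_nonneg_right hr hk0.le

/-- domination of the actions -/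
private theorem act_dom {L M : E n → E n → ℝ → ℝ} (hL : IsPeriodic L) (hM : IsPeriodic M) {c : E n}
    (h1 : ∀ (a : ℝ) (γ : ℝ → E n) (r : ℝ), Crv L c a 1 γ r →
      ∃ (δ : ℝ → E n) (r' : ℝ) (z : Fin n → ℤ),
        Crv M c a 1 δ r' ∧ r' ≤ r ∧ δ 0 = γ 0 ∧ δ 1 = γ 1 + zv z)
    (hα : alpha L c = alpha M c) (k : ℕ) (x y : Tor n) :
    ∀ a ∈ curveActions L c k x y, ∃ b ∈ curveActions M c k x y, b ≤ a := by
  rintro _ ⟨γ, hac, hx, hy, hint, rfl⟩
  obtain ⟨δ, r', z, hδ, hr, h0, hk'⟩ := gl hL hM (h1 (alpha L c)) k ⟨hac, hint, rfl⟩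
  refine ⟨r', ⟨δ, hδ.ac, ?_, ?_, ?_, ?_⟩, hr⟩
  · rw [h0, hx]
  · rw [← hy, hk']
    exact (pr_eq_pr.2 ⟨z, rfl⟩).symm
  · rw [← hα]
    exact hδ.int
  · rw [← hα]
    exact hδ.eq

theorem dom {L M : E n → E n → ℝ → ℝ} (hL : IsPeriodic L) (hM : IsPeriodic M) {c : E n}
    (h1 : ∀ (a : ℝ) (γ : ℝ → E n) (r : ℝ), Crv L c a 1 γ r →
      ∃ (δ : ℝ → E n) (r' : ℝ) (z : Fin n → ℤ),
        Crv M c a 1 δ r' ∧ r' ≤ r ∧ δ 0 = γ 0 ∧ δ 1 = γ 1 + zv z)
    (h2 : ∀ (a : ℝ) (γ : ℝ → E n) (r : ℝ), Crv M c a 1 γ r →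
      ∃ (δ : ℝ → E n) (r' : ℝ) (z : Fin n → ℤ),
        Crv L c a 1 δ r' ∧ r' ≤ r ∧ δ 0 = γ 0 ∧ δ 1 = γ 1 + zv z) :
    alpha L c = alpha M c ∧ aubry L c = aubry M c := by
  have hα : alpha L c = alpha M c := by
    rw [alpha, alpha, sInf_dom (loop_dom hL hM h1) (loop_dom hM hL h2)]
  refine ⟨hα, ?_⟩
  have hp : ∀ x y, peierls L c x y = peierls M c x y := by
    intro x y
    rw [peierls, peierls]
    congr 1
    funext k
    exact sInf_dom (act_dom hL hM h1 hα k x y) (act_dom hM hL h2 hα.symm k x y)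
  ext x
  rw [aubry, aubry, Set.mem_ofPred_eq, Set.mem_ofPred_eq, hp]

end Pool.Agent.H68.TO
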