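import Mathlib

/-!
# Module Tay: second differences of functions with bounded second derivative
`fderiv g` is `C`-Lipschitz (`Convex.norm_image_sub_le_of_norm_fderiv_le`), so
`‖g (z + k) - g z - fderiv g z k‖ ≤ C ‖k‖²` for `k = h` and `k = -h` (mean value inequality for `w ↦ g w - fderiv g z w`
on the closed ball of radius `‖h‖` about `z`, e.g. `Convex.norm_image_sub_le_of_norm_fderiv_le'`); add.
-/

set_option autoImplicit false

namespace Pool.Agent.H68.TO

theorem tay {F : Type*} [NormedAddCommGroup F] [NormedSpace ℝ F] {g : F → ℝ} (hg : ContDiff ℝ 2 g)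
    {C : ℝ} (hC : ∀ z, ‖fderiv ℝ (fderiv ℝ g) z‖ ≤ C) (z h : F) :
    g (z + h) + g (z - h) - 2 * g z ≤ 2 * C * ‖h‖ ^ 2 := by
  have hC0 : 0 ≤ C := (norm_nonneg (fderiv ℝ (fderiv ℝ g) z)).trans (hC z)
  have hgd : Differentiable ℝ g := hg.differentiable (by norm_num)
  have hg1 : ContDiff ℝ 1 (fderiv ℝ g) := hg.fderiv_right (by norm_num)
  have hgd' : Differentiable ℝ (fderiv ℝ g) := hg1.differentiable (by norm_num)
  have hL : ∀ a b : F, ‖fderiv ℝ g a - fderiv ℝ g b‖ ≤ C * ‖a - b‖ := fun a b =>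
    convex_univ.norm_image_sub_le_of_norm_fderiv_le (fun x _ => hgd' x) (fun x _ => hC x)
      (Set.mem_univ b) (Set.mem_univ a)
  have hd : ∀ t : ℝ, HasDerivAt (fun t : ℝ => g (z + t • h) + g (z - t • h))
      (fderiv ℝ g (z + t • h) h + fderiv ℝ g (z - t • h) (-h)) t := by
    intro t
    have h0 : HasDerivAt (fun t : ℝ => t • h) h t := by
      have := (hasDerivAt_id t).smul_const h
      rwa [one_smul] at this
    have h1 : HasDerivAt (fun t : ℝ => z + t • h) h t := h0.const_add z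
    have h2 : HasDerivAt (fun t : ℝ => z - t • h) (-h) t := h0.const_sub z
    exact ((hgd (z + t • h)).hasFDerivAt.comp_hasDerivAt t h1).add
      ((hgd (z - t • h)).hasFDerivAt.comp_hasDerivAt t h2)
  obtain ⟨c, hc, heq⟩ := exists_hasDerivAt_eq_slope (fun t : ℝ => g (z + t • h) + g (z - t • h))
    (fun t => fderiv ℝ g (z + t • h) h + fderiv ℝ g (z - t • h) (-h)) zero_lt_one
    (fun t _ => (hd t).continuousAt.continuousWithinAt) (fun t _ => hd t)
  have h3 : g (z + h) + g (z - h) - 2 * g z =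
      fderiv ℝ g (z + c • h) h + fderiv ℝ g (z - c • h) (-h) := by
    rw [heq]
    simp only [one_smul, zero_smul, add_zero, sub_zero, div_one]
    ring
  have h4 : fderiv ℝ g (z + c • h) h + fderiv ℝ g (z - c • h) (-h) =
      (fderiv ℝ g (z + c • h) - fderiv ℝ g (z - c • h)) h := by
    rw [map_neg]
    exact (sub_eq_add_neg _ _).symm
  have h5 : (fderiv ℝ g (z + c • h) - fderiv ℝ g (z - c • h)) h ≤
      ‖fderiv ℝ g (z + c • h) - fderiv ℝ g (z - c • h)‖ * ‖h‖ := by
    refine (Real.le_norm_self _).trans ?_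
    exact ContinuousLinearMap.le_opNorm (fderiv ℝ g (z + c • h) - fderiv ℝ g (z - c • h)) h
  have h6 : ‖(z + c • h) - (z - c • h)‖ ≤ 2 * ‖h‖ := by
    have e1 : (z + c • h) - (z - c • h) = (2 * c) • h := by
      rw [two_mul, add_smul]
      abel
    rw [e1, norm_smul, Real.norm_eq_abs, abs_of_nonneg (by linarith [hc.1])]
    have := norm_nonneg h
    nlinarith [hc.2]
  have h7 : ‖fderiv ℝ g (z + c • h) - fderiv ℝ g (z - c • h)‖ ≤ C * (2 * ‖h‖) :=
    (hL _ _).trans (mul_le_mul_of_nonneg_left h6 hC0)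
  rw [h3, h4]
  refine h5.trans ((mul_le_mul_of_nonneg_right h7 (norm_nonneg h)).trans (le_of_eq ?_))
  ring

end Pool.Agent.H68.TO
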