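import Pool.Agent.H68.TO.Def
import Pool.Agent.H68.TO.Tay

/-!
# Module Sc: second differences of a `C²` function, periodic in `(x, t)`, with bounded support in `v`
`G` as a function `g` on `E n × E n × ℝ` is `C²`, so its second derivative is continuous; it is zero where `‖v‖ > ρ`
(there `g` is locally zero) and invariant under translations by `(zv m, 0, k)` (`fderiv_comp_add_right`), hence bounded
(every `(x, t)` is congruent to a point with `‖x‖ ≤ √n`, `0 ≤ t ≤ 1`; compactness). `tay` with `h = (ξ, η, 0)`,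
`‖h‖² = max(‖ξ‖, ‖η‖)² ≤ ‖ξ‖² + ‖η‖²`.
-/

set_option autoImplicit false

open MeasureTheory Filter
open scoped RealInnerProductSpace

namespace Pool.Agent.H68.TO

open Pool.Agent.H33.AM (E Tor pr IsPeriodic)
open Pool.Agent.H68.HD

variable {n : ℕ}

private theorem sc_coe (t : ℝ) (k : ℤ) : ((t + k : ℝ) : UnitAddCircle) = (t : UnitAddCircle) := by
  rw [← sub_eq_zero, ← AddCircle.coe_sub, AddCircle.coe_eq_zero_iff]
  exact ⟨k, by simp⟩

private theorem sc_shift {F H : Type*} [NormedAddCommGroup F] [NormedSpace ℝ F]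
    [NormedAddCommGroup H] [NormedSpace ℝ H] {g : F → H} {w : F} (hg : ∀ z, g (z + w) = g z)
    (z : F) : fderiv ℝ g (z + w) = fderiv ℝ g z := by
  have h : (fun y => g (y + w)) = g := funext hg
  rw [← fderiv_comp_add_right w, h]

private theorem sc_second {G : E n → E n → ℝ → ℝ} (hper : IsPeriodic G)
    (hG : ContDiff ℝ 2 fun z : E n × E n × ℝ => G z.1 z.2.1 z.2.2) {ρ : ℝ}
    (h0 : ∀ x v t, ρ ≤ ‖v‖ → G x v t = 0) :
    ∃ C : ℝ, 0 ≤ C ∧ ∀ z : E n × E n × ℝ,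
      ‖fderiv ℝ (fderiv ℝ fun z : E n × E n × ℝ => G z.1 z.2.1 z.2.2) z‖ ≤ C := by
  obtain ⟨g, hg⟩ : ∃ g : E n × E n × ℝ → ℝ, g = fun z => G z.1 z.2.1 z.2.2 := ⟨_, rfl⟩
  rw [← hg] at hG ⊢
  have hc : Continuous (fderiv ℝ (fderiv ℝ g)) :=
    (hG.fderiv_right (m := 1) (by norm_num)).continuous_fderiv (by norm_num)
  have hcpt : IsCompact (Metric.closedBall (0 : E n) (Real.sqrt n) ×ˢ
      (Metric.closedBall (0 : E n) ρ ×ˢ Set.Icc (0 : ℝ) 1)) :=
    (isCompact_closedBall _ _).prod ((isCompact_closedBall _ _).prod isCompact_Icc)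
  have hn : Continuous fun z => ‖fderiv ℝ (fderiv ℝ g) z‖ :=
    Continuous.norm (E := (E n × E n × ℝ →L[ℝ] E n × E n × ℝ →L[ℝ] ℝ)) hc
  obtain ⟨M, hM⟩ := hcpt.bddAbove_image hn.continuousOn
  refine ⟨max M 0, le_max_right _ _, ?_⟩
  rintro ⟨x, v, t⟩
  rcases le_or_gt ‖v‖ ρ with hv | hv
  · obtain ⟨m, hm, -⟩ := exists_near x
    have hw : ∀ z : E n × E n × ℝ, g (z + (zv m, 0, ((-⌊t⌋ : ℤ) : ℝ))) = g z := by
      rintro ⟨y, u, s⟩
      rw [hg]
      show G (y + zv m) (u + 0) (s + ((-⌊t⌋ : ℤ) : ℝ)) = G y u s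
      rw [add_zero]
      exact (hper _ _ _ _ _ (pr_eq_pr.2 ⟨m, rfl⟩) (sc_coe s _).symm).symm
    have h1 := sc_shift (sc_shift hw) (x, v, t)
    rw [← h1]
    refine (hM ⟨_, ⟨?_, ?_, ?_⟩, rfl⟩).trans (le_max_left _ _)
    · rw [Metric.mem_closedBall, dist_zero_right]
      exact hm
    · rw [Metric.mem_closedBall, dist_zero_right]
      show ‖v + 0‖ ≤ ρ
      rw [add_zero]
      exact hv
    · show t + ((-⌊t⌋ : ℤ) : ℝ) ∈ Set.Icc (0 : ℝ) 1
      have h2 := Int.floor_le t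
      have h3 := (Int.lt_floor_add_one t).le
      push_cast
      exact ⟨by linarith, by linarith⟩
  · have h1 : g =ᶠ[nhds (x, v, t)] fun _ => (0 : ℝ) := by
      have ho : IsOpen {z : E n × E n × ℝ | ρ < ‖z.2.1‖} :=
        isOpen_lt continuous_const (by fun_prop)
      filter_upwards [ho.mem_nhds hv] with z hz
      rw [hg]
      exact h0 _ _ _ (le_of_lt hz)
    have h2 : fderiv ℝ g =ᶠ[nhds (x, v, t)] fun _ => (0 : E n × E n × ℝ →L[ℝ] ℝ) := by
      refine h1.fderiv.trans ?_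
      exact Filter.Eventually.of_forall fun z => fderiv_const_apply (0 : ℝ)
    rw [h2.fderiv_eq, fderiv_const_apply]
    exact (le_of_eq (norm_zero (E := (E n × E n × ℝ →L[ℝ] E n × E n × ℝ →L[ℝ] ℝ)))).trans
      (le_max_right _ _)

theorem sc_bd {G : E n → E n → ℝ → ℝ} (hper : IsPeriodic G)
    (hG : ContDiff ℝ 2 fun z : E n × E n × ℝ => G z.1 z.2.1 z.2.2) {ρ : ℝ}
    (h0 : ∀ x v t, ρ ≤ ‖v‖ → G x v t = 0) :
    ∃ C : ℝ, 0 ≤ C ∧ ∀ x v t ξ η, G (x + ξ) (v + η) t + G (x - ξ) (v - η) t - 2 * G x v t ≤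
      C * (‖ξ‖ ^ 2 + ‖η‖ ^ 2) := by
  obtain ⟨C, hC, h⟩ := sc_second hper hG h0
  refine ⟨2 * C, by positivity, fun x v t ξ η => ?_⟩
  have h1 := tay hG h (x, v, t) (ξ, η, 0)
  have h2 : G (x + ξ) (v + η) (t + 0) + G (x - ξ) (v - η) (t - 0) - 2 * G x v t ≤
      2 * C * ‖((ξ, η, 0) : E n × E n × ℝ)‖ ^ 2 := h1
  rw [add_zero, sub_zero] at h2
  refine h2.trans (mul_le_mul_of_nonneg_left ?_ (by positivity))
  rw [Prod.norm_mk, Prod.norm_mk, norm_zero, max_eq_left (norm_nonneg η)]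
  rcases le_total ‖ξ‖ ‖η‖ with h3 | h3
  · rw [max_eq_right h3]
    have := sq_nonneg ‖ξ‖
    linarith
  · rw [max_eq_left h3]
    have := sq_nonneg ‖η‖
    linarith

end Pool.Agent.H68.TO
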