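import Pool.Agent.H68.TO.Bd
import Pool.Agent.H68.TO.Sc

/-!
# Module Grw: the modified Lagrangian has quadratic growth
`md L f M₀ = G + M₀ ‖v‖²` with `G x v t = f v * (L x v t - M₀ ‖v‖²)`, which is `C²`, periodic, zero for `‖v‖ ≥ ρ'`; so `|G|`
is bounded (`bd` with `V = ρ'`, and `0` outside): `lo` with `κ = M₀`. `sc`: `sc_bd` for `G` and
`‖v + η‖² + ‖v - η‖² - 2 ‖v‖² = 2 ‖η‖²` (parallelogram law). `K' ≥` both constants, `≥ 0`.
-/

set_option autoImplicit false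

open MeasureTheory Filter
open scoped RealInnerProductSpace

namespace Pool.Agent.H68.TO

open Pool.Agent.H33.AM (E Tor pr IsPeriodic)
open Pool.Agent.H68.HD

variable {n : ℕ}

theorem md_growth {L : E n → E n → ℝ → ℝ} (hper : IsPeriodic L)
    (hL : ContDiff ℝ 2 fun z : E n × E n × ℝ => L z.1 z.2.1 z.2.2) {f : E n → ℝ}
    (hf : ContDiff ℝ 2 f) {ρ' : ℝ} (hf0 : ∀ v, ρ' ≤ ‖v‖ → f v = 0) {M₀ : ℝ} (hM : 0 < M₀) :
    ∃ K' : ℝ, Growth (md L f M₀) M₀ K' := by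
  obtain ⟨G, hGdef⟩ : ∃ G : E n → E n → ℝ → ℝ, G = fun x v t => f v * (L x v t - M₀ * ‖v‖ ^ 2) :=
    ⟨_, rfl⟩
  have hmd : ∀ x v t, md L f M₀ x v t = G x v t + M₀ * ‖v‖ ^ 2 := by
    intro x v t
    rw [hGdef]
    unfold md
    ring
  have hGper : IsPeriodic G := by
    intro x y v s t hxy hst
    rw [hGdef]
    change f v * (L x v s - M₀ * ‖v‖ ^ 2) = f v * (L y v t - M₀ * ‖v‖ ^ 2)
    rw [hper x y v s t hxy hst]
  have hv1 : ContDiff ℝ 2 fun z : E n × E n × ℝ => z.2.1 := contDiff_fst.comp contDiff_snd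
  have hnq : ContDiff ℝ 2 fun z : E n × E n × ℝ => ‖z.2.1‖ ^ 2 := (contDiff_norm_sq ℝ).comp hv1
  have hGc : ContDiff ℝ 2 fun z : E n × E n × ℝ => G z.1 z.2.1 z.2.2 := by
    rw [hGdef]
    exact (hf.comp hv1).mul (hL.sub (contDiff_const.mul hnq))
  have hG0 : ∀ x v t, ρ' ≤ ‖v‖ → G x v t = 0 := by
    intro x v t hv
    rw [hGdef]
    change f v * (L x v t - M₀ * ‖v‖ ^ 2) = 0
    rw [hf0 v hv, zero_mul]
  obtain ⟨A, hA0, hA⟩ := bd hGper hGc.continuous ρ'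
  obtain ⟨C, hC0, hC⟩ := sc_bd hGper hGc hG0
  refine ⟨A + (C + 2 * M₀), ?_, ?_, hM, ?_, ?_⟩
  · intro x y v s t hxy hst
    rw [hmd, hmd, hGper x y v s t hxy hst]
  · have h1 : (fun z : E n × E n × ℝ => md L f M₀ z.1 z.2.1 z.2.2) =
        fun z : E n × E n × ℝ => G z.1 z.2.1 z.2.2 + M₀ * ‖z.2.1‖ ^ 2 := by
      funext z
      exact hmd _ _ _
    rw [h1]
    exact (hGc.add (contDiff_const.mul hnq)).continuous
  · intro x v t
    rw [hmd]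
    have h1 : -A ≤ G x v t := by
      rcases le_total ‖v‖ ρ' with h | h
      · exact (abs_le.1 (hA x v t h)).1
      · rw [hG0 x v t h]
        linarith
    linarith
  · intro x v t ξ η _ _
    rw [hmd, hmd, hmd]
    have h1 := hC x v t ξ η
    have h2 := parallelogram_law_with_norm ℝ v η
    have h3 : 0 ≤ ‖ξ‖ ^ 2 + ‖η‖ ^ 2 := by positivity
    have h4 : (C + 2 * M₀) * (‖ξ‖ ^ 2 + ‖η‖ ^ 2) ≤
        (A + (C + 2 * M₀)) * (1 + ‖v‖ ^ 2) * (‖ξ‖ ^ 2 + ‖η‖ ^ 2) := by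
      refine mul_le_mul_of_nonneg_right ?_ h3
      have h5 : 0 ≤ ‖v‖ ^ 2 := by positivity
      have h6 : 0 ≤ (A + (C + 2 * M₀)) * ‖v‖ ^ 2 := by positivity
      linarith
    have h5 : M₀ * ‖v + η‖ ^ 2 + M₀ * ‖v - η‖ ^ 2 - 2 * (M₀ * ‖v‖ ^ 2) = 2 * M₀ * ‖η‖ ^ 2 := by
      linear_combination M₀ * h2
    have h6 : 0 ≤ 2 * M₀ * ‖ξ‖ ^ 2 := by positivity
    linarith

end Pool.Agent.H68.TO
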