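import Pool.Agent.H68.TO.Def

/-!
# Module Cvx: two inequalities for convex functions
`con_slow`: `θ⁻¹ = 1 + σ`, `0 ≤ σ ≤ 1`, `θ σ = 1 - θ`, `θ⁻¹ • v = (1 - σ) • v + σ • (2 • v)`, so
`f (θ⁻¹ • v) ≤ f v + σ (f (2 • v) - f v)`; times `θ`: `θ f (θ⁻¹ • v) ≤ f v + (1 - θ)(f (2 • v) - 2 f v)`.
`con_fast`: `w = θ⁻¹ • v`, `‖w‖ = ρ`, `w` lies between `ρ⁻¹ • w` (norm `1`) and `v = θ • w`:
`w = (1 - s) • (ρ⁻¹ • w) + s • v` with `s = (ρ - 1)/(θ ρ - 1)`, so `f w ≤ (1 - s) m + s f v`, i.e.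
`f v ≥ (f w - (1 - s) m)/s`, where `1/s = (θ ρ - 1)/(ρ - 1) = θ + (θ - 1)/(ρ - 1)`; with `f w ≥ ρ (m + e)`,
`f v ≥ f w + (θ - 1) ρ (f w - m)/(ρ - 1) ≥ θ f w + (θ - 1) e`, because
`ρ (f w - m) - (ρ - 1)(f w + e) = f w - ρ m - (ρ - 1) e ≥ 0`.
-/

set_option autoImplicit false

open MeasureTheory Filter
open scoped RealInnerProductSpace

namespace Pool.Agent.H68.TO

open Pool.Agent.H33.AM (E Tor pr IsPeriodic)
open Pool.Agent.H68.HD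

variable {n : ℕ}

theorem con_slow {f : E n → ℝ} (hf : ConvexOn ℝ Set.univ f) {V A B : ℝ}
    (hA : ∀ w, ‖w‖ ≤ 2 * V → f w ≤ A) (hB : ∀ w, -B ≤ f w) {v : E n} (hv : ‖v‖ ≤ V) {θ : ℝ}
    (h1 : 1 / 2 ≤ θ) (h2 : θ ≤ 1) :
    θ * f (θ⁻¹ • v) ≤ f v + (1 - θ) * (A + 2 * B) := by
  have hθ : 0 < θ := by linarith
  obtain ⟨σ, hσ⟩ : ∃ σ, σ = θ⁻¹ - 1 := ⟨_, rfl⟩
  have hθσ : θ * σ = 1 - θ := by
    rw [hσ, mul_sub, mul_inv_cancel₀ hθ.ne']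
    ring
  have hσ0 : 0 ≤ σ := by
    have h3 : 0 ≤ θ * σ := by rw [hθσ]; linarith
    exact nonneg_of_mul_nonneg_right h3 hθ
  have hσ1 : σ ≤ 1 := by
    by_contra hcon
    push Not at hcon
    nlinarith
  have hw : θ⁻¹ • v = (1 - σ) • v + σ • ((2 : ℝ) • v) := by
    rw [smul_smul, ← add_smul]
    congr 1
    rw [hσ]
    ring
  have h3 := hf.2 (Set.mem_univ v) (Set.mem_univ ((2 : ℝ) • v))
    (show (0 : ℝ) ≤ 1 - σ by linarith) hσ0 (by ring)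
  rw [← hw] at h3
  simp only [smul_eq_mul] at h3
  have h4 : f ((2 : ℝ) • v) ≤ A := by
    apply hA
    rw [norm_smul, Real.norm_eq_abs, abs_of_pos (by norm_num : (0 : ℝ) < 2)]
    linarith
  have h5 := hB v
  have h6 : θ * f (θ⁻¹ • v) ≤ θ * ((1 - σ) * f v + σ * f ((2 : ℝ) • v)) :=
    mul_le_mul_of_nonneg_left h3 hθ.le
  have h7 : θ * ((1 - σ) * f v + σ * f ((2 : ℝ) • v)) =
      f v + (1 - θ) * (f ((2 : ℝ) • v) - 2 * f v) := by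
    have : θ * ((1 - σ) * f v + σ * f ((2 : ℝ) • v)) =
      θ * f v - (θ * σ) * f v + (θ * σ) * f ((2 : ℝ) • v) := by ring
    rw [this, hθσ]
    ring
  have h8 : (1 - θ) * (f ((2 : ℝ) • v) - 2 * f v) ≤ (1 - θ) * (A + 2 * B) :=
    mul_le_mul_of_nonneg_left (by linarith) (by linarith)
  linarith

theorem con_fast {f : E n → ℝ} (hf : ConvexOn ℝ Set.univ f) {m e ρ : ℝ} (he : 0 ≤ e)
    (hm : ∀ w, ‖w‖ ≤ 1 → f w ≤ m) (hρ : 1 < ρ) (hs : ∀ w, ‖w‖ = ρ → ρ * (m + e) ≤ f w) {v : E n}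
    {θ : ℝ} (hθ : 1 ≤ θ) (hv : ‖v‖ = θ * ρ) :
    θ * f (θ⁻¹ • v) + (θ - 1) * e ≤ f v := by
  have hθ0 : 0 < θ := by linarith
  have hρ0 : 0 < ρ := by linarith
  obtain ⟨w, hw⟩ : ∃ w, w = θ⁻¹ • v := ⟨_, rfl⟩
  rw [← hw]
  have hvw : v = θ • w := by
    rw [hw, smul_smul, mul_inv_cancel₀ hθ0.ne', one_smul]
  have hwn : ‖w‖ = ρ := by
    rw [hw, norm_smul, norm_inv, Real.norm_eq_abs, abs_of_pos hθ0, hv, ← mul_assoc,
      inv_mul_cancel₀ hθ0.ne', one_mul]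
  have hu : f (ρ⁻¹ • w) ≤ m := by
    apply hm
    rw [norm_smul, norm_inv, Real.norm_eq_abs, abs_of_pos hρ0, hwn, inv_mul_cancel₀ hρ0.ne']
  have hsw := hs w hwn
  have hc : 0 < θ * ρ - 1 := by nlinarith
  obtain ⟨s, hsd⟩ : ∃ s, s = (ρ - 1) / (θ * ρ - 1) := ⟨_, rfl⟩
  have hs1 : s * (θ * ρ - 1) = ρ - 1 := by
    rw [hsd, div_mul_cancel₀ _ hc.ne']
  have hs0 : 0 ≤ s := by
    rw [hsd]
    exact div_nonneg (by linarith) hc.le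
  have hs2 : s ≤ 1 := by
    rw [hsd, div_le_one hc]
    nlinarith
  have h1 : w = (1 - s) • (ρ⁻¹ • w) + s • v := by
    rw [hvw, smul_smul, smul_smul, ← add_smul]
    have h2 : (1 - s) * ρ⁻¹ + s * θ = 1 := by
      field_simp
      linarith
    rw [h2, one_smul]
  have h3 := hf.2 (Set.mem_univ (ρ⁻¹ • w)) (Set.mem_univ v)
    (show (0 : ℝ) ≤ 1 - s by linarith) hs0 (by ring)
  rw [← h1] at h3
  simp only [smul_eq_mul] at h3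
  have h4 : f w ≤ (1 - s) * m + s * f v := by
    have : (1 - s) * f (ρ⁻¹ • w) ≤ (1 - s) * m := mul_le_mul_of_nonneg_left hu (by linarith)
    linarith
  have h5 : (θ * ρ - 1) * f w ≤ ρ * (θ - 1) * m + (ρ - 1) * f v := by
    have h6 := mul_le_mul_of_nonneg_left h4 hc.le
    have h7 : (θ * ρ - 1) * ((1 - s) * m + s * f v) =
        (θ * ρ - 1) * m - (s * (θ * ρ - 1)) * m + (s * (θ * ρ - 1)) * f v := by ring
    rw [h7, hs1] at h6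
    nlinarith
  have h8 : 0 ≤ (θ - 1) * (f w - ρ * m - (ρ - 1) * e) := by
    apply mul_nonneg (by linarith)
    nlinarith
  have h9 : (ρ - 1) * (θ * f w + (θ - 1) * e) ≤ (ρ - 1) * f v := by nlinarith
  exact le_of_mul_le_mul_left h9 (by linarith)

end Pool.Agent.H68.TO
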