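import Pool.Agent.H68.TO.Main
import Pool.Agent.H68.HDA.PinM

/-!
# Transfer of the lower bounds for the Hausdorff dimension to Tonelli Lagrangians
-/

set_option autoImplicit false

open MeasureTheory Filter
open scoped RealInnerProductSpace

namespace Pool.Agent.H68.TO

open Pool.Agent.H33.AM (E Tor pr IsPeriodic)
open Pool.Agent.H68.HD
open Pool.Agent.H68.HDA (Aut Pinched)

variable {n : ℕ}

/-- On every ball of classes `c` the alpha function and the Aubry sets of `L` are those of a Lagrangian of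
quadratic growth. -/
def Loc (L : E n → E n → ℝ → ℝ) : Prop :=
  ∀ R : ℝ, ∃ (L' : E n → E n → ℝ → ℝ) (κ K : ℝ), Growth L' κ K ∧ (Aut L → Aut L') ∧
    ∀ c : E n, ‖c‖ ≤ R → alpha L c = alpha L' c ∧ aubry L c = aubry L' c

theorem loc_of {L : E n → E n → ℝ → ℝ} (hL : (∃ κ K, Growth L κ K) ∨ Tame L) : Loc L := by
  rcases hL with ⟨κ, K, hL⟩ | hL
  · exact fun R => ⟨L, κ, K, hL, id, fun c _ => ⟨rfl, rfl⟩⟩
  · exact fun R => transfer hL R

theorem norm_add_le_of {c p : E n} {p₀ R : ℝ} (hR : ‖c‖ + 1 ≤ R) (hp : ‖p‖ ≤ min p₀ 1) :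
    ‖c + p‖ ≤ R :=
  (norm_add_le c p).trans ((add_le_add_right (hp.trans (min_le_right _ _)) _).trans hR)

theorem pinched_tr {f g : E n → ℝ} {R : ℝ} (h : ∀ c, ‖c‖ ≤ R → f c = g c) {c : E n}
    (hc : ‖c‖ + 1 ≤ R) (hf : Pinched f c) : Pinched g c := by
  obtain ⟨h', κ', K', p₀, hκ', hp₀, hq⟩ := hf
  refine ⟨h', κ', K', min p₀ 1, hκ', lt_min hp₀ one_pos, fun p hp => ?_⟩
  rw [← h c (by linarith), ← h (c + p) (norm_add_le_of hc hp)]
  exact hq p (hp.trans (min_le_left _ _))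

/-- Transfer of a statement for almost every `c`. -/
theorem ae_tr {L : E n → E n → ℝ → ℝ} (hL : Loc L) (b : ENNReal)
    (h : ∀ (L' : E n → E n → ℝ → ℝ) (κ K : ℝ), Growth L' κ K → (Aut L → Aut L') →
      ∀ᵐ c : E n, Pinched (alpha L') c → b ≤ dimH (aubry L' c)) :
    ∀ᵐ c : E n, Pinched (alpha L) c → b ≤ dimH (aubry L c) := by
  choose L' κ K hG hA heq using fun m : ℕ => hL m
  have h1 : ∀ᵐ c : E n, ∀ m : ℕ, Pinched (alpha (L' m)) c → b ≤ dimH (aubry (L' m) c) :=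
    ae_all_iff.2 fun m => h (L' m) (κ m) (K m) (hG m) (hA m)
  filter_upwards [h1] with c hc hp
  obtain ⟨m, hm⟩ := exists_nat_ge (‖c‖ + 1)
  rw [(heq m c (by linarith)).2]
  exact hc m (pinched_tr (fun c' hc' => (heq m c' hc').1) hm hp)

theorem quad_tr {f g : E n → ℝ} {R : ℝ} (h : ∀ c, ‖c‖ ≤ R → f c = g c) {c h' : E n}
    (hc : ‖c‖ + 1 ≤ R) {K' p₀ : ℝ}
    (hq : ∀ p, ‖p‖ ≤ p₀ → f (c + p) ≤ f c + ⟪h', p⟫ + K' * ‖p‖ ^ 2) :
    ∀ p, ‖p‖ ≤ min p₀ 1 → g (c + p) ≤ g c + ⟪h', p⟫ + K' * ‖p‖ ^ 2 := by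
  intro p hp
  rw [← h c (by linarith), ← h (c + p) (norm_add_le_of hc hp)]
  exact hq p (hp.trans (min_le_left _ _))

end Pool.Agent.H68.TO
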