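import Pool.Agent.H68.TO.Bd
import Pool.Agent.H68.TO.Cvx

/-!
# Module Cho: the choice of the constants
`B ≥ 1` from `hL.sup (R + 1)`; `K ≥ 0` from `hL.time` (take `max K 0`); `D = 1 + 2 B` (`1 + |L| ≤ D + L` since
`L ≥ -B`); `C₀ ≥ 0` from `bd` with `√n`; `C₂ = C₀ + R √n`, `C₁ = C₂ + B`, `C₃ = C₂ + R C₁`, `V = 2 C₁ + 1`;
`A ≥ 0` from `bd` with `2 V`, `e₀ = A + 2 B` (`con_slow`); `e = e₀ + K (C₃ + D)`; `m ≥ 0` from `bd` with `1`; `b` from
`hL.sup (m + e + 1)`; `ρ = max` of `8 C₁`, `2 V`, `√n`, `2`, `b`: then `(m + e + 1) ρ - b ≥ ρ (m + e)` (`con_fast`).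
-/

set_option autoImplicit false

open MeasureTheory Filter
open scoped RealInnerProductSpace

namespace Pool.Agent.H68.TO

open Pool.Agent.H33.AM (E Tor pr IsPeriodic)
open Pool.Agent.H68.HD

variable {n : ℕ}

theorem cho {L : E n → E n → ℝ → ℝ} (hL : Tame L) {R : ℝ} (hR : 0 ≤ R) :
    ∃ B K D C₀ C₁ C₂ C₃ e₀ e V ρ : ℝ, Cst n R B K D C₀ C₁ C₂ C₃ e₀ e V ρ ∧
      Slow L R B K D C₀ e₀ e V ρ := by
  obtain ⟨B0, hB0⟩ := hL.sup (R + 1)
  obtain ⟨K0, hK0⟩ := hL.time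
  obtain ⟨C₀, hC₀, hC₀b⟩ := bd hL.per hL.smooth.continuous (Real.sqrt n)
  have hn : 0 ≤ Real.sqrt n := Real.sqrt_nonneg _
  obtain ⟨B, hB1, hBlo⟩ : ∃ B : ℝ, 1 ≤ B ∧ ∀ x v t, (R + 1) * ‖v‖ - B ≤ L x v t := by
    refine ⟨max B0 1, le_max_right _ _, fun x v t => ?_⟩
    have h1 := hB0 x v t
    have h2 := le_max_left B0 1
    linarith
  have hlow : ∀ x v t, -B ≤ L x v t := by
    intro x v t
    have h1 := hBlo x v t
    have h2 : 0 ≤ (R + 1) * ‖v‖ := by positivity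
    linarith
  obtain ⟨K, hK, hKt⟩ : ∃ K : ℝ, 0 ≤ K ∧
      ∀ x v t s, L x v t - L x v s ≤ K * |t - s| * (1 + |L x v s|) := by
    refine ⟨max K0 0, le_max_right _ _, fun x v t s => ?_⟩
    have h1 := hK0 x v s t
    have h2 : L x v t - L x v s ≤ |L x v s - L x v t| := by
      rw [abs_sub_comm]
      exact le_abs_self _
    have h3 : K0 * |s - t| * (1 + |L x v s|) ≤ max K0 0 * |t - s| * (1 + |L x v s|) := by
      rw [abs_sub_comm s t]
      have := le_max_left K0 0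
      gcongr
    linarith
  obtain ⟨C₂, hC₂⟩ : ∃ C₂ : ℝ, C₂ = C₀ + R * Real.sqrt n := ⟨_, rfl⟩
  obtain ⟨C₁, hC₁⟩ : ∃ C₁ : ℝ, C₁ = C₂ + B := ⟨_, rfl⟩
  obtain ⟨C₃, hC₃⟩ : ∃ C₃ : ℝ, C₃ = C₂ + R * C₁ := ⟨_, rfl⟩
  obtain ⟨V, hV⟩ : ∃ V : ℝ, V = 2 * C₁ + 1 := ⟨_, rfl⟩
  have hRn : 0 ≤ R * Real.sqrt n := mul_nonneg hR hn
  have hC₂0 : 0 ≤ C₂ := by linarith
  have hC₁0 : 0 ≤ C₁ := by linarith
  have hRC : 0 ≤ R * C₁ := mul_nonneg hR hC₁0
  have hC₃0 : 0 ≤ C₃ := by linarith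
  obtain ⟨A, hA, hAb⟩ := bd hL.per hL.smooth.continuous (2 * V)
  obtain ⟨m, hm, hmb⟩ := bd hL.per hL.smooth.continuous 1
  obtain ⟨e, he⟩ : ∃ e : ℝ, e = (A + 2 * B) + K * (C₃ + (1 + 2 * B)) := ⟨_, rfl⟩
  have hKC : 0 ≤ K * (C₃ + (1 + 2 * B)) := mul_nonneg hK (by linarith)
  have he0 : 0 ≤ e := by linarith
  obtain ⟨b, hb⟩ := hL.sup (m + e + 1)
  obtain ⟨ρ, hρ⟩ : ∃ ρ : ℝ, ρ = 8 * C₁ + 2 * V + Real.sqrt n + 2 + |b| := ⟨_, rfl⟩
  have hb0 : 0 ≤ |b| := abs_nonneg b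
  have hbb : b ≤ |b| := le_abs_self b
  refine ⟨B, K, 1 + 2 * B, C₀, C₁, C₂, C₃, A + 2 * B, e, V, ρ, ?_, ?_⟩
  · exact
      { hR := hR
        hB := hB1
        hK := hK
        hD := by linarith
        he₀ := by linarith
        hC₁ := hC₁0
        h2 := by linarith
        h1 := by linarith
        h3 := by linarith
        hV := by linarith
        he := by linarith
        he' := he0
        hρC := by linarith
        hρV := by linarith
        hρn := by linarith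
        hρ1 := by linarith }
  · exact
      { per := hL.per
        cont := hL.smooth.continuous
        lo := hBlo
        time := by
          intro x v t s
          refine (hKt x v t s).trans ?_
          have h1 := hlow x v s
          have h2 : 1 + |L x v s| ≤ 1 + 2 * B + L x v s := by
            rcases abs_cases (L x v s) with h | h <;> linarith [h.1]
          have h3 : 0 ≤ K * |t - s| := mul_nonneg hK (abs_nonneg _)
          exact mul_le_mul_of_nonneg_left h2 h3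
        short := fun x v t hv => (le_abs_self _).trans (hC₀b x v t hv)
        slow := by
          intro x v t θ hv h1 h2
          exact con_slow (hL.conv x t) (fun w hw => (le_abs_self _).trans (hAb x w t hw))
            (fun w => hlow x w t) hv h1 h2
        fast := by
          intro x v t θ hθ hv
          refine con_fast (hL.conv x t) he0 (fun w hw => (le_abs_self _).trans (hmb x w t hw))
            (by linarith) (fun w hw => ?_) hθ hv
          have h1 := hb x w t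
          rw [hw] at h1
          nlinarith }

end Pool.Agent.H68.TO
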