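import Pool.Agent.H68.HDA.Base

/-!
# Tonelli Lagrangians: definitions of the project TO

`Tame`: the class of Lagrangians. `Slow`: the properties of a Lagrangian which give the replacement of curves by
Lipschitz curves. `Cst`: the relations between the constants. `Th`, `Tm`: the change of time.
-/

set_option autoImplicit false

open MeasureTheory Filter
open scoped RealInnerProductSpace

namespace Pool.Agent.H68.TO

open Pool.Agent.H33.AM (E Tor pr IsPeriodic)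
open Pool.Agent.H68.HD

variable {n : ℕ}

/-- Tonelli Lagrangians: `C²`, periodic, convex and superlinear in the velocity, with a bound for the dependence
on the time (void if `L` does not depend on the time). -/
structure Tame (L : E n → E n → ℝ → ℝ) : Prop where
  per : IsPeriodic L
  smooth : ContDiff ℝ 2 fun z : E n × E n × ℝ => L z.1 z.2.1 z.2.2
  conv : ∀ x t, ConvexOn ℝ Set.univ fun v => L x v t
  sup : ∀ a : ℝ, ∃ b : ℝ, ∀ x v t, a * ‖v‖ - b ≤ L x v t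
  time : ∃ K : ℝ, ∀ x v t s, |L x v t - L x v s| ≤ K * |t - s| * (1 + |L x v t|)

/-- The properties of `M` which are used in the replacement of curves by Lipschitz curves. -/
structure Slow (M : E n → E n → ℝ → ℝ) (R B K D C₀ e₀ e V ρ : ℝ) : Prop where
  per : IsPeriodic M
  cont : Continuous fun z : E n × E n × ℝ => M z.1 z.2.1 z.2.2
  lo : ∀ x v t, (R + 1) * ‖v‖ - B ≤ M x v t
  time : ∀ x v t s, M x v t - M x v s ≤ K * |t - s| * (D + M x v s)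
  short : ∀ x v t, ‖v‖ ≤ Real.sqrt n → M x v t ≤ C₀
  slow : ∀ x v t θ, ‖v‖ ≤ V → 1 / 2 ≤ θ → θ ≤ 1 → θ * M x (θ⁻¹ • v) t ≤ M x v t + (1 - θ) * e₀
  fast : ∀ x v t θ, 1 ≤ θ → ‖v‖ = θ * ρ → θ * M x (θ⁻¹ • v) t + (θ - 1) * e ≤ M x v t

/-- The relations between the constants. -/
structure Cst (n : ℕ) (R B K D C₀ C₁ C₂ C₃ e₀ e V ρ : ℝ) : Prop where
  hR : 0 ≤ R
  hB : 1 ≤ B
  hK : 0 ≤ K
  hD : B ≤ D
  he₀ : 0 ≤ e₀
  hC₁ : 0 ≤ C₁
  h2 : C₀ + R * Real.sqrt n ≤ C₂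
  h1 : C₂ + B ≤ C₁
  h3 : C₂ + R * C₁ ≤ C₃
  hV : 2 * C₁ + 1 ≤ V
  he : e₀ + K * (C₃ + D) ≤ e
  he' : 0 ≤ e
  hρC : 8 * C₁ ≤ ρ
  hρV : 2 * V ≤ ρ
  hρn : Real.sqrt n ≤ ρ
  hρ1 : 1 ≤ ρ

/-- The density `θ` of the change of time for a curve of speed `g`. -/
structure Th (g θ : ℝ → ℝ) (V ρ τ : ℝ) : Prop where
  meas : Measurable θ
  int : IntervalIntegrable θ volume 0 1
  lo : ∀ t, 1 / 2 ≤ θ t
  out : ∀ t, t ∉ Set.Icc (0 : ℝ) 1 → θ t = 1
  one : ∫ t in (0 : ℝ)..1, θ t = 1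
  up : ∫ t in (0 : ℝ)..1, max (θ t - 1) 0 = τ
  dn : ∫ t in (0 : ℝ)..1, max (1 - θ t) 0 = τ
  dom : ∀ t ∈ Set.Icc (0 : ℝ) 1, g t ≤ θ t * ρ
  fast : ∀ t ∈ Set.Icc (0 : ℝ) 1, 1 < θ t → g t = θ t * ρ
  slow : ∀ t ∈ Set.Icc (0 : ℝ) 1, θ t < 1 → g t ≤ V

/-- The change of time `T = ∫ θ` and its inverse `S`. -/
structure Tm (θ T S : ℝ → ℝ) : Prop where
  intl : ∀ a b : ℝ, IntervalIntegrable θ volume a b
  eq : ∀ s, T s = ∫ u in (0 : ℝ)..s, θ u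
  T0 : T 0 = 0
  T1 : T 1 = 1
  mono : StrictMono T
  cont : Continuous T
  der : ∀ᵐ u : ℝ, HasDerivAt T (θ u) u
  ST : ∀ u, S (T u) = u
  TS : ∀ t, T (S t) = t
  lipS : ∀ s t, |S t - S s| ≤ 2 * |t - s|

/-- The Lagrangian `f L + (1 - f) M₀ |v|²`. -/
noncomputable def md (L : E n → E n → ℝ → ℝ) (f : E n → ℝ) (M₀ : ℝ) : E n → E n → ℝ → ℝ :=
  fun x v t => f v * L x v t + (1 - f v) * (M₀ * ‖v‖ ^ 2)

end Pool.Agent.H68.TO
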