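import Pool.Agent.H68.TO.Def
import Pool.Agent.H68.HD.AC1
import Pool.Agent.H68.HD.AC2

/-!
# Module Gl: replacement of curves, from one step to `k` steps
Translation: `Crv M c a k δ r → Crv M c a k (fun t => δ t + zv w) r` (periodicity of `M` in `x`, `pr_eq_pr`).
Induction on `k` or directly: cut `γ` (`crv_cut` for `L`), replace every piece (`h1`): `δ i` from `γ i` to
`γ (i + 1) + zv (z i)`, action `r' i ≤ s i`; with `w i = ∑ j < i, z j` the curves `δ i + zv (w i)` go from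
`f i := γ i + zv (w i)` to `f (i + 1)`; `crv_chain` for `M`.
-/

set_option autoImplicit false

open MeasureTheory Filter
open scoped RealInnerProductSpace

namespace Pool.Agent.H68.TO

open Pool.Agent.H33.AM (E Tor pr IsPeriodic)
open Pool.Agent.H68.HD

variable {n : ℕ}

private theorem crv_tr {M : E n → E n → ℝ → ℝ} (hM : IsPeriodic M) {c : E n} {a : ℝ} {k : ℕ}
    {δ : ℝ → E n} {r : ℝ} (h : Crv M c a k δ r) (w : Fin n → ℤ) :
    Crv M c a k (fun t => δ t + zv w) r := by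
  have hd : ∀ t, deriv (fun t => δ t + zv w) t = deriv δ t := fun t => deriv_add_const _
  have hp : ∀ (x v : E n) (t : ℝ), M (x + zv w) v t = M x v t := fun x v t =>
    (hM x (x + zv w) v t t (pr_eq_pr.2 ⟨w, rfl⟩) rfl).symm
  have hF : (fun t => M (δ t + zv w) (deriv (fun t => δ t + zv w) t) t -
      ⟪c, deriv (fun t => δ t + zv w) t⟫ + a) =
      fun t => M (δ t) (deriv δ t) t - ⟪c, deriv δ t⟫ + a := by
    funext t
    rw [hd, hp]
  refine ⟨?_, ?_, ?_⟩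
  · have h1 := h.ac
    unfold AbsolutelyContinuousOnInterval at h1 ⊢
    simpa only [dist_add_right] using h1
  · have h1 := h.int
    rw [hF]
    exact h1
  · rw [hF]
    exact h.eq

theorem gl {L M : E n → E n → ℝ → ℝ} (hL : IsPeriodic L) (hM : IsPeriodic M) {c : E n} {a : ℝ}
    (h1 : ∀ (γ : ℝ → E n) (r : ℝ), Crv L c a 1 γ r → ∃ (δ : ℝ → E n) (r' : ℝ) (z : Fin n → ℤ),
      Crv M c a 1 δ r' ∧ r' ≤ r ∧ δ 0 = γ 0 ∧ δ 1 = γ 1 + zv z)
    (k : ℕ) {γ : ℝ → E n} {r : ℝ} (h : Crv L c a k γ r) :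
    ∃ (δ : ℝ → E n) (r' : ℝ) (z : Fin n → ℤ), Crv M c a k δ r' ∧ r' ≤ r ∧ δ 0 = γ 0 ∧
      δ k = γ k + zv z := by
  obtain ⟨d, s, hd, hr⟩ := crv_cut hL h
  have h2 : ∀ i < k, ∃ (δ : ℝ → E n) (r' : ℝ) (z : Fin n → ℤ),
      Crv M c a 1 δ r' ∧ r' ≤ s i ∧ δ 0 = d i 0 ∧ δ 1 = d i 1 + zv z :=
    fun i hi => h1 (d i) (s i) (hd i hi).1
  choose! D R Z hD using h2
  have hch := crv_chain hM (c := c) (e := a) k
    (fun i : ℕ => γ i + zv (∑ j ∈ Finset.range i, Z j))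
    (fun i t => D i t + zv (∑ j ∈ Finset.range i, Z j)) R
    (fun i hi => crv_tr hM (hD i hi).1 _)
    (fun i hi => by
      show D i 0 + zv (∑ j ∈ Finset.range i, Z j) = γ i + zv (∑ j ∈ Finset.range i, Z j)
      rw [(hD i hi).2.2.1, (hd i hi).2.1])
    (fun i hi => by
      show D i 1 + zv (∑ j ∈ Finset.range i, Z j) =
        γ ((i + 1 : ℕ) : ℝ) + zv (∑ j ∈ Finset.range (i + 1), Z j)
      rw [(hD i hi).2.2.2, (hd i hi).2.2, Finset.sum_range_succ, zv_add]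
      abel)
  obtain ⟨ε, hε, h0, hk⟩ := hch
  refine ⟨ε, _, ∑ j ∈ Finset.range k, Z j, hε, ?_, ?_, hk⟩
  · rw [hr]
    exact Finset.sum_le_sum fun i hi => (hD i (Finset.mem_range.1 hi)).2.1
  · rw [h0]
    simp [zv_zero]

end Pool.Agent.H68.TO
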