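import Pool.Agent.H68.TO.Def

/-!
# Module Mod: the modified Lagrangian `f L + (1 - f) M₀ |v|²` has the properties `Slow`
`md = L` for `‖v‖ ≤ ρ` (so `short` (`√n ≤ ρ`) and `slow` (`‖θ⁻¹ • v‖ ≤ 2 V ≤ ρ`) are those of `L`). `lo`:
`M₀ ‖v‖² ≥ (R + 1)² ‖v‖² ≥ (R + 1) ‖v‖ - 1` and `B ≥ 1`, convex combination. `time`:
`f (L(t) - L(s)) ≤ f K |t - s| (D + L(s)) ≤ K |t - s| (D + md(s))`, as `D ≥ 0`. `fast`: `w = θ⁻¹ • v` has norm
`ρ`, `md(w) = L(w)`, `θ L(w) + (θ - 1) e ≤ L(v)` and `θ L(w) + (θ - 1) e ≤ θ (|L(w)| + e) ≤ θ M₀ ρ² ≤ M₀ ‖v‖²`; convex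
combination.
-/

set_option autoImplicit false

open MeasureTheory Filter
open scoped RealInnerProductSpace

namespace Pool.Agent.H68.TO

open Pool.Agent.H33.AM (E Tor pr IsPeriodic)
open Pool.Agent.H68.HD

variable {n : ℕ}

private theorem md_eq {L : E n → E n → ℝ → ℝ} {f : E n → ℝ} {M₀ ρ : ℝ}
    (hfρ : ∀ v, ‖v‖ ≤ ρ → f v = 1) {v : E n} (hv : ‖v‖ ≤ ρ) (x : E n) (t : ℝ) :
    md L f M₀ x v t = L x v t := by
  simp only [md, hfρ v hv]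
  ring

/-- A convex combination of two upper bounds. -/
private theorem le_comb {a b c f : ℝ} (h0 : 0 ≤ f) (h1 : f ≤ 1) (hb : a ≤ b) (hc : a ≤ c) :
    a ≤ f * b + (1 - f) * c := by
  nlinarith [mul_nonneg h0 (sub_nonneg.2 hb), mul_nonneg (sub_nonneg.2 h1) (sub_nonneg.2 hc)]

theorem md_slow {L : E n → E n → ℝ → ℝ} {R B K D C₀ C₁ C₂ C₃ e₀ e V ρ : ℝ}
    (hL : Slow L R B K D C₀ e₀ e V ρ) (hC : Cst n R B K D C₀ C₁ C₂ C₃ e₀ e V ρ) {f : E n → ℝ}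
    (hf : Continuous f) (hf0 : ∀ v, 0 ≤ f v) (hf1 : ∀ v, f v ≤ 1) (hfρ : ∀ v, ‖v‖ ≤ ρ → f v = 1)
    {M₀ : ℝ} (hM : (R + 1) ^ 2 ≤ M₀) (hA : ∀ x v t, ‖v‖ ≤ ρ → |L x v t| + e ≤ M₀ * ρ ^ 2) :
    Slow (md L f M₀) R B K D C₀ e₀ e V ρ := by
  have hR := hC.hR
  have hM0 : 0 ≤ M₀ := le_trans (by positivity) hM
  have hρ0 : 0 ≤ ρ := zero_le_one.trans hC.hρ1
  have hD0 : 0 ≤ D := by linarith [hC.hB, hC.hD]
  have hC1 := hC.hC₁
  refine ⟨?_, ?_, ?_, ?_, ?_, ?_, ?_⟩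
  · -- periodic
    intro x y v s t h1 h2
    simp only [md]
    rw [hL.per x y v s t h1 h2]
  · -- continuous
    have h1 := hL.cont
    have h2 : Continuous fun z : E n × E n × ℝ => f z.2.1 := hf.comp (by fun_prop)
    have h3 : Continuous fun z : E n × E n × ℝ => M₀ * ‖z.2.1‖ ^ 2 := by fun_prop
    exact (h2.mul h1).add ((continuous_const.sub h2).mul h3)
  · -- the lower bound
    intro x v t
    have h1 := hL.lo x v t
    have h2 : (R + 1) * ‖v‖ - B ≤ M₀ * ‖v‖ ^ 2 := by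
      have h3 : (R + 1) ^ 2 * ‖v‖ ^ 2 ≤ M₀ * ‖v‖ ^ 2 := mul_le_mul_of_nonneg_right hM (sq_nonneg _)
      nlinarith [sq_nonneg ((R + 1) * ‖v‖ - 1), sq_nonneg ((R + 1) * ‖v‖), hC.hB]
    exact le_comb (hf0 v) (hf1 v) h1 h2
  · -- the time
    intro x v t s
    have h1 := hL.time x v t s
    have h2 : md L f M₀ x v t - md L f M₀ x v s = f v * (L x v t - L x v s) := by
      simp only [md]; ring
    rw [h2]
    have h3 : f v * (L x v t - L x v s) ≤ f v * (K * |t - s| * (D + L x v s)) :=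
      mul_le_mul_of_nonneg_left h1 (hf0 v)
    refine h3.trans ?_
    have h4 : 0 ≤ K * |t - s| := mul_nonneg hC.hK (abs_nonneg _)
    have h5 : f v * (D + L x v s) ≤ D + md L f M₀ x v s := by
      simp only [md]
      have h6 : 0 ≤ (1 - f v) * D := mul_nonneg (sub_nonneg.2 (hf1 v)) hD0
      have h7 : 0 ≤ (1 - f v) * (M₀ * ‖v‖ ^ 2) :=
        mul_nonneg (sub_nonneg.2 (hf1 v)) (mul_nonneg hM0 (sq_nonneg _))
      nlinarith
    calc f v * (K * |t - s| * (D + L x v s)) = K * |t - s| * (f v * (D + L x v s)) := by ring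
      _ ≤ K * |t - s| * (D + md L f M₀ x v s) := mul_le_mul_of_nonneg_left h5 h4
  · -- short vectors
    intro x v t hv
    rw [md_eq hfρ (hv.trans hC.hρn)]
    exact hL.short x v t hv
  · -- slow
    intro x v t θ hv hθ hθ1
    have hθ0 : 0 < θ := by linarith
    have hVρ := hC.hρV
    have hV := hC.hV
    have h1 : ‖θ⁻¹ • v‖ ≤ ρ := by
      rw [norm_smul, Real.norm_of_nonneg (inv_nonneg.2 hθ0.le)]
      have h2 : θ⁻¹ ≤ 2 := by
        rw [inv_le_comm₀ hθ0 (by norm_num)]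
        linarith
      calc θ⁻¹ * ‖v‖ ≤ 2 * V :=
            mul_le_mul h2 hv (norm_nonneg _) (by norm_num)
        _ ≤ ρ := hVρ
    rw [md_eq hfρ h1, md_eq hfρ (by linarith)]
    exact hL.slow x v t θ hv hθ hθ1
  · -- fast
    intro x v t θ hθ hv
    have hθ0 : 0 < θ := by linarith
    have h1 : ‖θ⁻¹ • v‖ = ρ := by
      rw [norm_smul, Real.norm_of_nonneg (inv_nonneg.2 hθ0.le), hv, inv_mul_cancel_left₀ hθ0.ne']
    rw [md_eq hfρ h1.le]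
    have h2 := hL.fast x v t θ hθ hv
    have h3 := hA x (θ⁻¹ • v) t h1.le
    have h4 := le_abs_self (L x (θ⁻¹ • v) t)
    have he := hC.he'
    have h5 : θ * L x (θ⁻¹ • v) t + (θ - 1) * e ≤ M₀ * ‖v‖ ^ 2 := by
      rw [hv]
      have h6 : θ * L x (θ⁻¹ • v) t + (θ - 1) * e ≤ θ * (|L x (θ⁻¹ • v) t| + e) := by
        nlinarith [mul_le_mul_of_nonneg_left h4 hθ0.le]
      have h7 : θ * (|L x (θ⁻¹ • v) t| + e) ≤ θ * (M₀ * ρ ^ 2) :=
        mul_le_mul_of_nonneg_left h3 hθ0.le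
      have h8 : θ * (M₀ * ρ ^ 2) ≤ M₀ * (θ * ρ) ^ 2 := by
        have h9 : 0 ≤ M₀ * ρ ^ 2 := mul_nonneg hM0 (sq_nonneg _)
        have h10 : 0 ≤ (θ - 1) * θ := mul_nonneg (by linarith) hθ0.le
        nlinarith [mul_nonneg h10 h9]
      linarith
    exact le_comb (hf0 v) (hf1 v) h2 h5

end Pool.Agent.H68.TO
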