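import Pool.Agent.H68.TO.Step
import Pool.Agent.H68.TO.Dom
import Pool.Agent.H68.TO.Cho
import Pool.Agent.H68.TO.Mod
import Pool.Agent.H68.TO.Grw
import Mathlib.Analysis.Calculus.BumpFunction.InnerProduct

/-!
# Main theorem of the project TO
`R ≥ 0` w.l.o.g. (`max R 0`). `cho` for `L`; `A` from `bd` with `ρ`; `M₀ := max ((R + 1)²) ((A + e)/ρ²)`; `f` a `ContDiffBump`
at `0` with inner radius `ρ` and outer radius `2 ρ` (on `E n`; `one_of_mem_closedBall`, `zero_of_le_dist`, `nonneg`, `le_one`,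
`contDiff`); `L' = md L f M₀`: `md_slow`, `md_growth`; `L' = L` for `‖v‖ ≤ ρ`. By `step` (for `L` and for `L'`) the two
hypotheses of `dom` hold: the curve `δ` has `‖deriv δ t‖ ≤ ρ`, so a `Crv` of `L` is a `Crv` of `L'` and vice versa.
-/

set_option autoImplicit false

open MeasureTheory Filter
open scoped RealInnerProductSpace

namespace Pool.Agent.H68.TO

open Pool.Agent.H33.AM (E Tor pr IsPeriodic)
open Pool.Agent.H68.HD

variable {n : ℕ}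

/-- A curve of speed at most `ρ` has the same action for two Lagrangians which agree for `‖v‖ ≤ ρ`. -/
private theorem crv_congr {L M : E n → E n → ℝ → ℝ} {ρ : ℝ}
    (h : ∀ x v t, ‖v‖ ≤ ρ → L x v t = M x v t) {c : E n} {a : ℝ} {k : ℕ} {δ : ℝ → E n} {r : ℝ}
    (hδ : ∀ t, ‖deriv δ t‖ ≤ ρ) (hc : Crv L c a k δ r) : Crv M c a k δ r := by
  have he : (fun t => L (δ t) (deriv δ t) t - ⟪c, deriv δ t⟫ + a) =
      fun t => M (δ t) (deriv δ t) t - ⟪c, deriv δ t⟫ + a := by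
    funext t
    rw [h _ _ _ (hδ t)]
  obtain ⟨h1, h2, h3⟩ := hc
  rw [he] at h2 h3
  exact ⟨h1, h2, h3⟩

/-- For `|c| ≤ R` the alpha function and the Aubry set of `L` are those of a Lagrangian of quadratic growth. -/
theorem transfer {L : E n → E n → ℝ → ℝ} (hL : Tame L) (R : ℝ) :
    ∃ (L' : E n → E n → ℝ → ℝ) (κ K : ℝ), Growth L' κ K ∧
      (Pool.Agent.H68.HDA.Aut L → Pool.Agent.H68.HDA.Aut L') ∧
      ∀ c : E n, ‖c‖ ≤ R → alpha L c = alpha L' c ∧ aubry L c = aubry L' c := by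
  obtain ⟨R₀, hR₀⟩ : ∃ R₀, R₀ = max R 0 := ⟨_, rfl⟩
  have hR0 : 0 ≤ R₀ := hR₀ ▸ le_max_right _ _
  have hRR : R ≤ R₀ := hR₀ ▸ le_max_left _ _
  obtain ⟨B, K, D, C₀, C₁, C₂, C₃, e₀, e, V, ρ, hC, hS⟩ := cho hL hR0
  obtain ⟨A, hA0, hA⟩ := bd hL.per hL.smooth.continuous ρ
  have hρ1 : 1 ≤ ρ := hC.hρ1
  have hρ0 : 0 < ρ := lt_of_lt_of_le one_pos hρ1
  have hρ2 : 0 < ρ ^ 2 := by positivity
  obtain ⟨M₀, hM₀⟩ : ∃ M₀, M₀ = max ((R₀ + 1) ^ 2) ((A + e) / ρ ^ 2) := ⟨_, rfl⟩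
  have hM1 : (R₀ + 1) ^ 2 ≤ M₀ := hM₀ ▸ le_max_left _ _
  have hM2 : (A + e) / ρ ^ 2 ≤ M₀ := hM₀ ▸ le_max_right _ _
  have hM0 : 0 < M₀ := lt_of_lt_of_le (by positivity) hM1
  have hM3 : A + e ≤ M₀ * ρ ^ 2 := (div_le_iff₀ hρ2).1 hM2
  let f : ContDiffBump (0 : E n) := ⟨ρ, 2 * ρ, hρ0, by linarith⟩
  have hf1 : ∀ v : E n, ‖v‖ ≤ ρ → f v = 1 := by
    intro v hv
    refine f.one_of_mem_closedBall ?_
    rw [mem_closedBall_zero_iff]
    exact hv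
  have hf0 : ∀ v : E n, 2 * ρ ≤ ‖v‖ → f v = 0 := by
    intro v hv
    refine f.zero_of_le_dist ?_
    rw [dist_zero_right]
    exact hv
  have hfs : ContDiff ℝ 2 (f : E n → ℝ) := f.contDiff
  obtain ⟨K', hG⟩ := md_growth hL.per hL.smooth hfs hf0 hM0
  have hSl : Slow (md L f M₀) R₀ B K D C₀ e₀ e V ρ := by
    refine md_slow hS hC hfs.continuous (fun v => f.nonneg) (fun v => f.le_one) hf1 hM1 ?_
    intro x v t hv
    linarith [hA x v t hv]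
  have heq : ∀ (x v : E n) (t : ℝ), ‖v‖ ≤ ρ → L x v t = md L f M₀ x v t := by
    intro x v t hv
    simp only [md, hf1 v hv]
    ring
  refine ⟨md L f M₀, M₀, K', hG, ?_, ?_⟩
  · intro ha x v t
    simp only [md]
    rw [ha x v t]
  · intro c hc
    have hc0 : ‖c‖ ≤ R₀ := hc.trans hRR
    refine dom hL.per hSl.per ?_ ?_
    · intro a γ r h
      obtain ⟨δ, r', z, h1, h2, h3, h4, h5⟩ := step hS hC hc0 h
      exact ⟨δ, r', z, crv_congr heq h5 h1, h2, h3, h4⟩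
    · intro a γ r h
      obtain ⟨δ, r', z, h1, h2, h3, h4, h5⟩ := step hSl hC hc0 h
      exact ⟨δ, r', z, crv_congr (fun x v t hv => (heq x v t hv).symm) h5 h1, h2, h3, h4⟩

end Pool.Agent.H68.TO
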